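import Pool.Agent.U80.MQ.Fld
import Pool.Agent.Y682.XD.Alg
import Pool.Agent.Y888.XD.Qf
import Pool.Agent.Y51.XD.Deg2
import Pool.Agent.Y421.XD.Rke
import Pool.Agent.Y153.XD.Sq

/-!
# The rational points over the subfields of a real multiquadratic field
-/

set_option autoImplicit false

open NumberField IsDedekindDomain WeierstrassCurve

namespace Pool.Agent.U80.MQ

open Pool.Agent.TH841.NF.D (rk)
open Pool.Agent.TH841.NF (Sc)
open Pool.Agent.Y682 (gc gc_isT fg_MP MP mt mt_inj)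
open Pool.Agent.Y682.XD (RR_quad S_QF S_DEG2 S_RKE S_SQ)

/-- the twist `y² = x³ - 35 D² x - 98 D³` over `K` -/
def tc (D : ℕ) (K : Type) [Field K] : WeierstrassCurve K :=
  { a₁ := 0, a₂ := 0, a₃ := 0, a₄ := ((A D : ℤ) : K), a₆ := ((B D : ℤ) : K) }

/-- the other equation -/
noncomputable def wq (c : ℤ) (K : Type) [Field K] : WeierstrassCurve K := gc (21 * c) (112 * c ^ 2) K

lemma wq_ne {c : ℤ} (hc : c ≠ 0) : (112 * c ^ 2 ≠ 0) ∧ (21 * c) ^ 2 - 4 * (112 * c ^ 2) ≠ 0 := by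
  have h2 : c ^ 2 ≠ 0 := pow_ne_zero 2 hc
  refine ⟨mul_ne_zero (by norm_num) h2, ?_⟩
  have e1 : (21 * c) ^ 2 - 4 * (112 * c ^ 2) = -7 * c ^ 2 := by ring
  rw [e1]
  exact mul_ne_zero (by norm_num) h2

/-- the rank over `F` of the twist by `c` -/
noncomputable def R7 (F : Type) [Field F] [NumberField F] (c : ℤ) : ℕ := rk (wq c F)

lemma R7_iso {K K' : Type} [Field K] [NumberField K] [Field K'] [NumberField K']
    (e : K ≃+* K') {d : ℤ} (hd : d ≠ 0) : R7 K d = R7 K' d :=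
  Pool.Agent.Y421.XD.s_rke K K' e _ _ (wq_ne hd).1 (wq_ne hd).2

/-- the quadratic formula -/
lemma R7_quad (F F' : IntermediateField ℚ ℂ) [NumberField F]
    [NumberField F'] {z : ℂ} {d : ℤ} (hd : d ≠ 0) (hz : z ∉ F) (hz2 : z ^ 2 = (d : ℂ))
    (hF' : F' = F ⊔ IntermediateField.adjoin ℚ {z}) {c : ℤ} (hc : c ≠ 0) :
    R7 F' c = R7 F c + R7 F (c * d) := by
  have hle : F ≤ F' := by rw [hF']; exact le_sup_left
  have hzF' : z ∈ F' := by
    rw [hF']
    exact (le_sup_right : _ ≤ F ⊔ IntermediateField.adjoin ℚ {z})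
      (IntermediateField.mem_adjoin_simple_self ℚ z)
  let _ : Algebra F F' := (IntermediateField.inclusion hle).toRingHom.toAlgebra
  have h3 := Pool.Agent.Y888.XD.s_qf F F' (21 * c) (112 * c ^ 2) d (⟨z, hzF'⟩ : F')
    (wq_ne hc).1 (wq_ne hc).2 hd (Subtype.ext (by
      show z ^ 2 = _
      rw [hz2]
      rfl)) (Pool.Agent.Y51.XD.s_deg2 F F' z d hz hz2 hle hF') (by
      intro x hx
      apply hz
      have h4 := congrArg (fun y : F' => (y : ℂ)) hx
      have h5 : (x : ℂ) = z := h4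
      rw [← h5]
      exact x.2)
  unfold R7 wq
  rw [h3]
  congr 2
  · congr 1
    · ring
    · ring

lemma Om_empty : Om ∅ = ⊥ := by
  unfold Om
  rw [IntermediateField.adjoin_eq_bot_iff]
  rintro z ⟨d, hd, -⟩
  exact absurd hd (Finset.notMem_empty d)

lemma Om_insert (S : Finset ℕ) (d : ℕ) {z : ℂ} (hz : z ^ 2 = (d : ℂ)) :
    Om (insert d S) = Om S ⊔ IntermediateField.adjoin ℚ {z} := by
  apply le_antisymm
  · unfold Om
    rw [IntermediateField.adjoin_le_iff]
    rintro w ⟨e, he, hw⟩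
    rcases Finset.mem_insert.1 he with rfl | he
    · have h1 : z ∈ IntermediateField.adjoin ℚ {z} := IntermediateField.mem_adjoin_simple_self ℚ z
      have h2 : w ∈ IntermediateField.adjoin ℚ {z} := by
        rcases sq_eq_sq_iff_eq_or_eq_neg.1 (hw.trans hz.symm) with h | h
        · rw [h]; exact h1
        · rw [h]; exact neg_mem h1
      exact (le_sup_right : _ ≤ (IntermediateField.adjoin ℚ {z : ℂ | ∃ d ∈ S, z ^ 2 = (d : ℂ)}) ⊔ _) h2
    · exact (le_sup_left : (IntermediateField.adjoin ℚ {z : ℂ | ∃ d ∈ S, z ^ 2 = (d : ℂ)}) ≤ _ ⊔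
        IntermediateField.adjoin ℚ {z}) (IntermediateField.subset_adjoin ℚ _ ⟨e, he, hw⟩)
  · refine sup_le ?_ ?_
    · unfold Om
      refine IntermediateField.adjoin.mono ℚ _ _ ?_
      rintro w ⟨e, he, hw⟩
      exact ⟨e, Finset.mem_insert_of_mem he, hw⟩
    · rw [IntermediateField.adjoin_simple_le_iff]
      exact IntermediateField.subset_adjoin ℚ _ ⟨d, Finset.mem_insert_self _ _, hz⟩

/-- the rank over the multiquadratic field -/
theorem R7_Om (S : Finset ℕ) : (∀ q ∈ S, q ≠ 0) → FiniteDimensional ℚ (Om S) ∧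
    ∀ (F₀ : IntermediateField ℚ ℂ) [NumberField F₀], F₀ = Om S → ∀ c : ℤ, c ≠ 0 →
      (∀ T, T ⊆ S → R7 ℚ (c * ((∏ q ∈ T, q : ℕ) : ℤ)) = 0) → R7 F₀ c = 0 := by
  classical
  induction S using Finset.induction_on with
  | empty =>
    intro _
    refine ⟨?_, ?_⟩
    · rw [Om_empty]; infer_instance
    · intro F₀ _ hF₀ c hc h
      rw [Om_empty] at hF₀
      subst hF₀
      have hq : R7 ℚ c = R7 (⊥ : IntermediateField ℚ ℂ) c :=
        R7_iso (IntermediateField.botEquiv ℚ ℂ).symm.toRingEquiv hc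
      rw [← hq]
      have := h ∅ (Finset.Subset.refl _)
      simpa using this
  | insert d S hdS ih =>
    intro hS
    obtain ⟨hfd, ih'⟩ := ih (fun e he => hS e (Finset.mem_insert_of_mem he))
    have hd : d ≠ 0 := hS d (Finset.mem_insert_self _ _)
    have hdZ : (d : ℤ) ≠ 0 := by exact_mod_cast hd
    obtain ⟨z, hz⟩ : ∃ z : ℂ, z ^ 2 = (d : ℂ) := IsAlgClosed.exists_pow_nat_eq _ (by norm_num)
    have hins := Om_insert S d hz
    have hG₀ : NumberField (Om S) := { to_charZero := inferInstance, to_finiteDimensional := hfd }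
    by_cases hz0 : z ∈ Om S
    · have hins' : Om (insert d S) = Om S := by
        rw [hins]
        exact sup_eq_left.2 ((IntermediateField.adjoin_simple_le_iff).2 hz0)
      rw [hins']
      refine ⟨hfd, fun F₀ _ hF₀ c hc h => ih' F₀ hF₀ c hc fun T hT => ?_⟩
      exact h T (hT.trans (Finset.subset_insert _ _))
    · refine ⟨?_, ?_⟩
      · rw [hins]
        have : FiniteDimensional ℚ (IntermediateField.adjoin ℚ {z} : IntermediateField ℚ ℂ) :=
          IntermediateField.adjoin.finiteDimensional ⟨Polynomial.X ^ 2 - Polynomial.C (d : ℚ),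
            Polynomial.monic_X_pow_sub_C _ (by norm_num), by
              rw [Polynomial.eval₂_sub, Polynomial.eval₂_pow, Polynomial.eval₂_X,
                Polynomial.eval₂_C, hz, map_natCast, sub_self]⟩
        exact IntermediateField.finiteDimensional_sup _ _
      · intro F₀ _ hF₀ c hc h
        rw [R7_quad (Om S) F₀ hdZ hz0 (by rw [hz, Int.cast_natCast]) (hF₀.trans hins) hc,
          ih' (Om S) rfl c hc (fun T hT => h T (hT.trans (Finset.subset_insert _ _))),
          ih' (Om S) rfl (c * d) (mul_ne_zero hc hdZ) (fun T hT => ?_)]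
        have h1 := h (insert d T) (Finset.insert_subset_insert d hT)
        rw [Finset.prod_insert (fun h2 => hdS (hT h2))] at h1
        rw [← h1]
        congr 1
        push_cast
        ring

/-- the change of variables -/
noncomputable def cv (c : ℤ) (K : Type) [Field K] : VariableChange K := ⟨1, 7 * (c : K), 0, 0⟩

lemma cv_eq (D : ℕ) (K : Type) [Field K] : cv D K • tc D K = wq D K := by
  unfold cv tc wq gc A B
  ext
  · rw [variableChange_a₁]
    simp
  · rw [variableChange_a₂]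
    simp
    ring
  · rw [variableChange_a₃]
    simp
  · rw [variableChange_a₄]
    simp
    ring
  · rw [variableChange_a₆]
    simp
    ring

lemma tc_disc {D : ℕ} (hD : D ≠ 0) (K : Type) [Field K] [CharZero K] : (tc D K).Δ ≠ 0 := by
  have hDK : (D : K) ≠ 0 := by exact_mod_cast hD
  have e : (tc D K).Δ = -1404928 * (D : K) ^ 6 := by
    unfold tc A B WeierstrassCurve.Δ WeierstrassCurve.b₂ WeierstrassCurve.b₄ WeierstrassCurve.b₆
      WeierstrassCurve.b₈
    simp
    ring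
  rw [e]
  exact mul_ne_zero (by norm_num) (pow_ne_zero 6 hDK)

open scoped Classical in
lemma pt_equiv {D : ℕ} (hD : D ≠ 0) (K : Type) [Field K] [NumberField K] :
    Nonempty ((tc D K).toAffine.Point ≃ (wq D K).toAffine.Point) := by
  obtain ⟨⟨e⟩, -⟩ := Pool.Agent.Y655.XT.s_shavc K (tc D K) (wq D K) (cv D K) (tc_disc hD K) (cv_eq D K)
  exact ⟨e.toEquiv⟩

lemma finrank_fin {G : Type} [AddCommGroup G] [Finite G] : Module.finrank ℤ G = 0 := by
  refine Module.finrank_eq_zero_of_rank_eq_zero (rank_eq_zero_iff.2 fun x =>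
    ⟨(Nat.card G : ℤ), by exact_mod_cast Nat.card_pos.ne', ?_⟩)
  rw [natCast_zsmul]
  exact card_nsmul_eq_zero'

/-- over the rational numbers -/
lemma R7_rat {D : ℕ} (hD : D ≠ 0) (h : Finite (tc D ℚ).toAffine.Point) : R7 ℚ D = 0 := by
  obtain ⟨e⟩ := pt_equiv hD ℚ
  have h1 : Finite (MP (wq D ℚ)) := Finite.of_equiv _ e
  exact finrank_fin (G := MP (wq D ℚ))

/-- the twist by the product -/
lemma R7_tw {M D : ℕ} (hM : M ≠ 0) (hD : D ≠ 0)
    (h : Finite (tc (tw M D) ℚ).toAffine.Point) : R7 ℚ (D * ((M : ℕ) : ℤ)) = 0 := by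
  obtain ⟨e1, e2⟩ := tw_spec hM hD
  have h1 := R7_rat e2 h
  have hg : (Nat.gcd M D : ℤ) ≠ 0 := by exact_mod_cast Nat.gcd_ne_zero_left hM
  have h2 := Pool.Agent.Y153.XD.s_sq ℚ (21 * ((tw M D : ℕ) : ℤ)) (112 * ((tw M D : ℕ) : ℤ) ^ 2)
    (Nat.gcd M D : ℤ) (wq_ne (by exact_mod_cast e2)).1 (wq_ne (by exact_mod_cast e2)).2 hg
  have e3 : ((tw M D : ℕ) : ℤ) * (Nat.gcd M D : ℤ) ^ 2 = M * D := by exact_mod_cast e1
  unfold R7 wq at h1 ⊢
  rw [h1] at h2
  rw [← h2]
  congr 2
  · linear_combination (-21 : ℤ) * e3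
  · linear_combination (-112 : ℤ) * (((tw M D : ℕ) : ℤ) * (Nat.gcd M D : ℤ) ^ 2 + M * D) * e3

open scoped Classical in
/-- finitely many points over the multiquadratic field -/
theorem fin_Om {P : Finset ℕ} (hP : ∀ q ∈ P, q.Prime) {D : ℕ} (hD : D ≠ 0)
    (h : ∀ T, T ⊆ P → Finite (tc (tw (∏ q ∈ T, q) D) ℚ).toAffine.Point) :
    NumberField (Om P) ∧ Finite (tc D (Om P)).toAffine.Point := by
  obtain ⟨hfd, h1⟩ := R7_Om P fun q hq => (hP q hq).ne_zero
  have hN : NumberField (Om P) := { to_charZero := inferInstance, to_finiteDimensional := hfd }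
  refine ⟨hN, ?_⟩
  have h2 := h1 (Om P) rfl D (by exact_mod_cast hD) fun T hT =>
    R7_tw (Finset.prod_ne_zero_iff.2 fun q hq => (hP q (hT hq)).ne_zero) hD (h T hT)
  have hDZ : (D : ℤ) ≠ 0 := by exact_mod_cast hD
  have h3 : Module.Finite ℤ (MP (wq D (Om P))) :=
    fg_MP (gc_isT (wq_ne hDZ).1 (wq_ne hDZ).2 (Om P))
  have h4 : Module.finrank ℤ (MP (wq D (Om P))) = 0 := h2
  have h5 : Module.IsTorsion ℤ (MP (wq D (Om P))) := Module.finrank_eq_zero_iff_isTorsion.1 h4
  have h6 : Finite (MP (wq D (Om P))) := Module.finite_of_fg_torsion _ h5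
  obtain ⟨e⟩ := pt_equiv hD (Om P)
  have h7 : Finite (wq D (Om P)).toAffine.Point := h6
  exact Finite.of_equiv _ e.symm

lemma sc_le {K K' : IntermediateField ℚ ℂ} (h : K ≤ K') (D : ℕ) :
    Sc (IntermediateField.inclusion h).toRingHom 1 (tc D K) (tc D K') := by
  refine ⟨one_ne_zero, ?_, ?_, ?_, ?_, ?_⟩ <;> simp [tc]

/-- finitely many points over the subfields -/
theorem fin_K {P : Finset ℕ} (hP : ∀ q ∈ P, q.Prime) {D : ℕ} (hD : D ≠ 0)
    (h : ∀ T, T ⊆ P → Finite (tc (tw (∏ q ∈ T, q) D) ℚ).toAffine.Point)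
    (K : IntermediateField ℚ ℂ) (hK : K ≤ Om P) : Finite (tc D K).toAffine.Point := by
  have h1 := (fin_Om hP hD h).2
  have h2 : Finite (MP (tc D (Om P))) := h1
  exact Finite.of_injective (mt (sc_le hK D)) (mt_inj (sc_le hK D))

end Pool.Agent.U80.MQ
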