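import Pool.Agent.U80.MQ.Tow
import Pool.Agent.N770.Sqrt

/-!
# The tower is infinite
-/

set_option autoImplicit false

namespace Pool.Agent.U80.MQ

open Pool.Agent.Results.MP_4a9ea6_nt.TwoPartTwistsX49 (Adm)

lemma sqrt_prop {p q : ℕ} (hp : p.Prime) (hq : q.Prime) (hpq : p ≠ q) (a : ℚ) :
    ((Real.sqrt p : ℝ) : ℂ) ≠ algebraMap ℚ ℂ a * ((Real.sqrt q : ℝ) : ℂ) := by
  intro h
  have h1 : (Real.sqrt p : ℝ) = (a : ℝ) * Real.sqrt q := by
    have h2 : ((Real.sqrt p : ℝ) : ℂ) = (((a : ℝ) * Real.sqrt q : ℝ) : ℂ) := by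
      rw [h]
      push_cast
      simp
    exact_mod_cast h2
  have h2 : (p : ℝ) = (a : ℝ) ^ 2 * q := by
    have h3 : (Real.sqrt p) ^ 2 = ((a : ℝ) * Real.sqrt q) ^ 2 := by rw [h1]
    rw [mul_pow, Real.sq_sqrt (Nat.cast_nonneg p), Real.sq_sqrt (Nat.cast_nonneg q)] at h3
    exact h3
  have h3 : (p : ℚ) = a ^ 2 * q := by exact_mod_cast h2
  have h4 : IsSquare ((p * q : ℕ) : ℚ) := ⟨a * q, by
    push_cast
    rw [h3]
    ring⟩
  rw [Rat.isSquare_natCast_iff] at h4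
  obtain ⟨r, hr⟩ := h4
  have h5 : p ∣ r := by
    have : p ∣ r * r := by rw [← hr]; exact Dvd.intro _ rfl
    exact (hp.dvd_mul.1 this).elim id id
  obtain ⟨k, rfl⟩ := h5
  have h6 : p * q = p * (p * (k * k)) := by rw [hr]; ring
  have h7 := Nat.eq_of_mul_eq_mul_left hp.pos h6
  have h8 : p ∣ q := ⟨_, h7⟩
  exact hpq ((Nat.prime_dvd_prime_iff_eq hp hq).1 h8)

/-- **the tower is infinite** -/
theorem KK_inf {D : ℕ} (hA : Adm D) : ¬ FiniteDimensional ℚ (KK D) := by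
  intro hfd
  have hinf := QD_inf hA
  let x : {q : ℕ // QD D q} → ℂ := fun q => ((Real.sqrt q.1 : ℝ) : ℂ)
  have hx : ∀ q, x q * x q = algebraMap ℚ ℂ (q.1 : ℚ) := by
    intro q
    show ((Real.sqrt q.1 : ℝ) : ℂ) * ((Real.sqrt q.1 : ℝ) : ℂ) = _
    rw [← Complex.ofReal_mul, Real.mul_self_sqrt (Nat.cast_nonneg _)]
    simp
  have hli : LinearIndependent ℚ x := by
    refine Pool.Agent.N770.linearIndependent_sqrt two_ne_zero x (fun q => ⟨_, hx q⟩) (fun q h0 => ?_)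
      (fun p q hpq a => sqrt_prop p.2.1 q.2.1 (fun h => hpq (Subtype.ext h)) a)
    have h1 := hx q
    rw [h0, zero_mul] at h1
    have h2 : (algebraMap ℚ ℂ (q.1 : ℚ)) = ((q.1 : ℕ) : ℂ) := by simp
    rw [h2] at h1
    exact q.2.1.ne_zero (by exact_mod_cast h1.symm)
  have hmem : ∀ q, x q ∈ KK D := by
    intro q
    refine IntermediateField.subset_adjoin ℚ _ ⟨q.1, q.2, ?_⟩
    rw [sq, hx]
    simp
  let y : {q : ℕ // QD D q} → KK D := fun q => ⟨x q, hmem q⟩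
  have hy : LinearIndependent ℚ y := by
    refine LinearIndependent.of_comp (KK D).val.toLinearMap ?_
    exact hli
  have hfin : Finite {q : ℕ // QD D q} := hy.finite
  exact hinf (Set.finite_coe_iff.1 hfin)

end Pool.Agent.U80.MQ
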