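import Pool.Agent.Y702.L.Loc
import Pool.Agent.W165.CE.Euler

/-!
# The Euler product of a cubic curve over a subfield of a cyclotomic field

The curve is `y² = x³ + a x + b`; after `Y884/XT/LK`.
-/

set_option autoImplicit false

open NumberField IsDedekindDomain H300.HW Filter
open Pool.Agent.H921R2.TatePole
open W165.CE (pw av fac fac_eq multipliable_fac ap0)

namespace Pool.Agent.U80.MQ

open Pool.Agent.Y702.L (pv local_quad)

section prod
variable (n : ℕ) [NeZero n] (L : Type) [Field L] [NumberField L] [IsCyclotomicExtension {n} ℚ L]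
  (F : IntermediateField ℚ L)

/-- the number `[p ∤ N] p` -/
noncomputable def pp (N p : ℕ) : ℂ := open Classical in if p ∣ N then 0 else (p : ℂ)

/-- the Euler factor of the twist by the primitive character -/
noncomputable def eul (N : ℕ) (c : ℕ → ℂ) (χ : DirichletCharacter ℂ n) (s : ℂ) (p : ℕ) : ℂ :=
  (1 - c p * pv n χ p * (p : ℂ) ^ (-s) + pp N p * pv n χ p ^ 2 * (p : ℂ) ^ (-2 * s))⁻¹

open Classical in
/-- the Euler product over the subfield `F` of the cyclotomic field -/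
theorem hasProd_F {a b : ℤ} {N : ℕ} {c : ℕ → ℂ} (hE : 4 * a ^ 3 + 27 * b ^ 2 ≠ 0)
    (H : ∀ p : ℕ, p.Prime → ¬ (p : ℤ) ∣ 2 * (4 * a ^ 3 + 27 * b ^ 2) →
      ¬ p ∣ N ∧ c p = ((ap0 a b p : ℤ) : ℂ)) (G : DirichletCharacter ℂ n → ℂ → ℂ) (s : ℂ)
    (hs : 3 / 2 < s.re)
    (hG : ∀ χ ∈ YY n L F, HasProd (fun p : Nat.Primes => eul n N c χ s p) (G χ s)) :
    HasProd (fac (K := F) a b N c s) (∏ χ : YY n L F, G χ s) := by
  have h1 : HasProd (fun p : Nat.Primes => ∏ χ : YY n L F, eul n N c χ s p)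
      (∏ χ : YY n L F, G χ s) := by
    apply hasProd_prod
    intro χ _
    exact hG χ.1 χ.2
  have h2 : ∀ p : Nat.Primes, ∏ χ : YY n L F, eul n N c χ s p =
      ∏ v : {v : HeightOneSpectrum (𝓞 F) // below v = p}, fac a b N c s v.1 := by
    intro p
    have h3 : ∀ v : {v : HeightOneSpectrum (𝓞 F) // below v = p}, fac a b N c s v.1 =
        (1 - pw (c p) (pp N p) (deg v.1) * (((p : ℕ) : ℂ) ^ (-s)) ^ deg v.1 +
          pp N p ^ deg v.1 * (((p : ℕ) : ℂ) ^ (-s)) ^ (2 * deg v.1))⁻¹ := by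
      rintro ⟨v, hv⟩
      rw [fac_eq H v s, hv]
      rfl
    rw [Finset.prod_congr rfl (fun v _ => h3 v), Finset.prod_inv_distrib,
      local_quad n L F p (c p) (pp N p) (((p : ℕ) : ℂ) ^ (-s)), ← Finset.prod_inv_distrib]
    refine Finset.prod_congr rfl fun χ _ => ?_
    unfold eul
    congr 1
    have e1 : ((p : ℕ) : ℂ) ^ (-2 * s) = (((p : ℕ) : ℂ) ^ (-s)) ^ 2 := by
      rw [← Complex.cpow_nat_mul]
      congr 1
      push_cast
      ring
    rw [e1]
    ring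
  simp_rw [h2] at h1
  have h3 : Multipliable (fac (K := F) a b N c s) := multipliable_fac hE s hs
  rw [← (Equiv.sigmaFiberEquiv (below (K := F))).hasProd_iff]
  refine HasProd.sigma_of_hasProd h1 (fun p => ?_) ?_
  · exact hasProd_fintype _
  · exact (Equiv.sigmaFiberEquiv (below (K := F))).multipliable_iff.2 h3

end prod

section
variable {K : Type} [Field K] [NumberField K]

open Classical in
/-- the Euler factor at `v` of `y² = x³ + a x + b`, `1` at the places dividing `2 (4 a³ + 27 b²)` -/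
noncomputable def factor (a b : ℤ) (s : ℂ) (v : HeightOneSpectrum (𝓞 K)) : ℂ :=
  if ((2 * (4 * a ^ 3 + 27 * b ^ 2) : ℤ) : 𝓞 K) ∈ v.asIdeal then 1 else
    (1 - ((av a b v : ℤ) : ℂ) * ((Ideal.absNorm v.asIdeal : ℕ) : ℂ) ^ (-s)
      + ((Ideal.absNorm v.asIdeal : ℕ) : ℂ) ^ (1 - 2 * s))⁻¹

lemma pw_zero (k : ℕ) (hk : k ≠ 0) : pw 0 0 k = 0 := by
  rw [W165.CE.pw_eq (t := 0) (u := 0) (α := 0) (β := 0) (by ring) (by ring), zero_pow hk, add_zero]

/-- the two factors are the same -/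
theorem fac_factor {a b : ℤ} {N : ℕ} {c : ℕ → ℂ}
    (H : ∀ p : ℕ, p.Prime → (p : ℤ) ∣ 2 * (4 * a ^ 3 + 27 * b ^ 2) → p ∣ N ∧ c p = 0)
    (s : ℂ) (v : HeightOneSpectrum (𝓞 K)) : fac a b N c s v = factor a b s v := by
  classical
  have hdeg : deg v ≠ 0 := (nm_eq v).2.1.ne'
  have hb : (Ideal.absNorm v.asIdeal).minFac = (below v : ℕ) := rfl
  have hd : (Ideal.absNorm v.asIdeal).factorization (Ideal.absNorm v.asIdeal).minFac = deg v := rfl
  unfold fac factor
  by_cases h1 : ((2 * (4 * a ^ 3 + 27 * b ^ 2) : ℤ) : 𝓞 K) ∈ v.asIdeal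
  · rw [if_pos h1, if_pos h1, hd, hb]
    obtain ⟨h2, h3⟩ := H (below v) (below v).2 ((W165.CE.intCast_mem_iff v _).1 h1)
    rw [if_pos h2, if_pos h2, h3, pw_zero _ hdeg, zero_mul, sub_zero, add_zero, inv_one]
  · rw [if_neg h1, if_neg h1]

end

end Pool.Agent.U80.MQ
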