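import Pool.Agent.U80.MQ.Eul

/-!
# The local factors of the twists of `X_0(49)`
-/

set_option autoImplicit false

open Filter
open W165.CE (ap0 hasse)
open Pool.Agent.H82R3.EK (card_points)

namespace Pool.Agent.U80.MQ

/-- the coefficient of `x` -/
def A (D : ℕ) : ℤ := -35 * (D : ℤ) ^ 2

/-- the constant coefficient -/
def B (D : ℕ) : ℤ := -98 * (D : ℤ) ^ 3

lemma disc_eq (D : ℕ) : 2 * (4 * A D ^ 3 + 27 * B D ^ 2) = ((2 ^ 9 * 7 ^ 3 * D ^ 6 : ℕ) : ℤ) := by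
  unfold A B
  push_cast
  ring

lemma disc_ne {D : ℕ} (hD : D ≠ 0) : 4 * A D ^ 3 + 27 * B D ^ 2 ≠ 0 := by
  have h : (D : ℤ) ≠ 0 := by exact_mod_cast hD
  have e : 4 * A D ^ 3 + 27 * B D ^ 2 = 87808 * (D : ℤ) ^ 6 := by
    unfold A B
    ring
  rw [e]
  positivity

lemma dvd_disc {D p : ℕ} (hp : p.Prime) :
    (p : ℤ) ∣ 2 * (4 * A D ^ 3 + 27 * B D ^ 2) ↔ p ∣ 14 * D := by
  rw [disc_eq, Int.natCast_dvd_natCast, show (14 : ℕ) = 2 * 7 by norm_num, hp.dvd_mul, hp.dvd_mul,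
    hp.dvd_mul, hp.dvd_mul]
  constructor
  · rintro ((h | h) | h)
    · exact Or.inl (Or.inl (hp.dvd_of_dvd_pow h))
    · exact Or.inl (Or.inr (hp.dvd_of_dvd_pow h))
    · exact Or.inr (hp.dvd_of_dvd_pow h)
  · rintro ((h | h) | h)
    · exact Or.inl (Or.inl (dvd_pow h (by norm_num)))
    · exact Or.inl (Or.inr (dvd_pow h (by norm_num)))
    · exact Or.inr (dvd_pow h (by norm_num))

/-- the coefficient as a character sum -/
lemma ap0_sum {p : ℕ} [Fact p.Prime] (hp2 : p ≠ 2) (a b : ℤ) :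
    ap0 a b p = - ∑ x : ZMod p, quadraticChar (ZMod p) (x ^ 3 + (a : ZMod p) * x + (b : ZMod p)) := by
  have hk : ringChar (ZMod p) ≠ 2 := by
    rw [ZMod.ringChar_zmod_n]
    exact hp2
  unfold ap0
  rw [card_points hk (fun x => x ^ 3 + (a : ZMod p) * x + (b : ZMod p)), ZMod.card]
  ring

/-- the coefficient of a twist -/
lemma ap0_tw {D p : ℕ} (hp : p.Prime) (hp2 : p ≠ 2) (h : ¬ p ∣ D) :
    ap0 (A D) (B D) p = jacobiSym D p * ap0 (-35) (-98) p := by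
  have hpf : Fact p.Prime := ⟨hp⟩
  have hD : ((D : ℕ) : ZMod p) ≠ 0 := by
    rw [Ne, ZMod.natCast_eq_zero_iff]
    exact h
  rw [ap0_sum hp2, ap0_sum hp2, ← jacobiSym.legendreSym.to_jacobiSym]
  have e : ∑ x : ZMod p, quadraticChar (ZMod p) (x ^ 3 + (A D : ZMod p) * x + (B D : ZMod p)) =
      ∑ x : ZMod p, quadraticChar (ZMod p) (((D : ℕ) : ZMod p) * x) ^ 3 *
        0 + ∑ x : ZMod p, quadraticChar (ZMod p) ((((D : ℕ) : ZMod p) * x) ^ 3 +
        (A D : ZMod p) * (((D : ℕ) : ZMod p) * x) + (B D : ZMod p)) := by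
    rw [Finset.sum_congr rfl fun x _ => mul_zero _, Finset.sum_const_zero, zero_add]
    exact (Equiv.sum_comp (Equiv.mulLeft₀ _ hD) fun x => quadraticChar (ZMod p)
      (x ^ 3 + (A D : ZMod p) * x + (B D : ZMod p))).symm
  rw [e, Finset.sum_congr rfl fun x _ => mul_zero _, Finset.sum_const_zero, zero_add, mul_neg,
    Finset.mul_sum]
  congr 1
  refine Finset.sum_congr rfl fun x _ => ?_
  have e1 : (((D : ℕ) : ZMod p) * x) ^ 3 + (A D : ZMod p) * (((D : ℕ) : ZMod p) * x) +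
      (B D : ZMod p) = ((D : ℕ) : ZMod p) ^ 2 * (((D : ℕ) : ZMod p) *
        (x ^ 3 + ((-35 : ℤ) : ZMod p) * x + ((-98 : ℤ) : ZMod p))) := by
    unfold A B
    push_cast
    ring
  rw [e1, map_mul, map_mul, quadraticChar_sq_one' hD, one_mul]
  congr 1
  unfold legendreSym
  rw [Int.cast_natCast]

/-- the coefficients of two twists -/
lemma ap0_rel {D D' M g p : ℕ} (hp : p.Prime) (hp2 : p ≠ 2) (h : ¬ p ∣ D) (h' : ¬ p ∣ D')
    (hM : ¬ p ∣ M) (e : D' * g ^ 2 = M * D) (hM4 : M % 4 = 1) :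
    ap0 (A D') (B D') p = jacobiSym p M * ap0 (A D) (B D) p := by
  rw [ap0_tw hp hp2 h, ap0_tw hp hp2 h', ← mul_assoc]
  congr 1
  have hpf : Fact p.Prime := ⟨hp⟩
  have hpo : Odd p := hp.odd_of_ne_two hp2
  have hg : ¬ p ∣ g := by
    intro hg
    have h1 : p ∣ M * D := by
      rw [← e]
      exact (dvd_pow hg two_ne_zero).mul_left D'
    rcases hp.dvd_mul.1 h1 with h2 | h2
    · exact hM h2
    · exact h h2
  have hgc : IsCoprime ((g : ℕ) : ℤ) ((p : ℕ) : ℤ) := by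
    rw [Nat.isCoprime_iff_coprime]
    exact ((Nat.Prime.coprime_iff_not_dvd hp).2 hg).symm
  have hDc : IsCoprime ((D : ℕ) : ℤ) ((p : ℕ) : ℤ) := by
    rw [Nat.isCoprime_iff_coprime]
    exact ((Nat.Prime.coprime_iff_not_dvd hp).2 h).symm
  have e1 : jacobiSym (D' : ℤ) p * jacobiSym (g : ℤ) p ^ 2 = jacobiSym (M : ℤ) p * jacobiSym (D : ℤ) p := by
    rw [← jacobiSym.pow_left, ← jacobiSym.mul_left, ← jacobiSym.mul_left]
    congr 1
    exact_mod_cast e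
  have e2 : jacobiSym (g : ℤ) p ^ 2 = 1 := jacobiSym.sq_one (Int.isCoprime_iff_gcd_eq_one.1 hgc)
  have e3 : jacobiSym (D : ℤ) p ^ 2 = 1 := jacobiSym.sq_one (Int.isCoprime_iff_gcd_eq_one.1 hDc)
  rw [e2, mul_one] at e1
  rw [e1, jacobiSym.quadratic_reciprocity_one_mod_four hM4 hpo]

end Pool.Agent.U80.MQ
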