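import Pool.Agent.U80.MQ.Kum2
import Pool.Agent.R413.SQ.Cor
import Pool.Agent.Y682.Stab
import Pool.Agent.Y655.XT.Shavc

/-!
# The 2-primary part of `Ш` over the number fields in the tower
-/

set_option autoImplicit false

attribute [-instance] DivisionRing.toRatAlgebra

open WeierstrassCurve

open scoped Classical

namespace Pool.Agent.U80.MQ

open Pool.Agent.TH841.NF (Sc thS thS_ker)

/-- no 2-torsion: from the number field `ℚ` to `ℚ` -/
theorem sh_of_nf {E : WeierstrassCurve ℚ}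
    (h : ∀ x : Pool.Agent.TH841.NF.D.Sha E, 2 • x = 0 → x = 0) :
    ∀ x : Pool.Agent.TH841.SH.D.Sha E, 2 • x = 0 → x = 0 := by
  intro x hx
  let _ : Algebra ℚ ℚ := Algebra.id ℚ
  have hW : Sc (algebraMap ℚ ℚ) 1 E E := by
    refine ⟨one_ne_zero, ?_, ?_, ?_, ?_, ?_⟩ <;> simp
  obtain ⟨e⟩ := Pool.Agent.Y682.exists_e ℚ
  have h1 := h (Pool.Agent.Y682.rsS hW e x) (by rw [← map_nsmul, hx, map_zero])
  have h2 := Pool.Agent.Y682.coS_rsS hW e x
  rw [h1, map_zero, Module.finrank_self, one_smul] at h2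
  exact h2.symm

lemma no_two_pow {A : Type} [AddCommGroup A] (h : ∀ x : A, 2 • x = 0 → x = 0) (k : ℕ) :
    ∀ x : A, (2 ^ k : ℕ) • x = 0 → x = 0 := by
  induction k with
  | zero =>
    intro x hx
    rwa [pow_zero, one_smul] at hx
  | succ k ih =>
    intro x hx
    refine ih x (h _ ?_)
    rw [smul_smul, mul_comm, ← pow_succ]
    exact hx

/-- a scaling of the short model -/
theorem nf_scale {D D' : ℕ} {m g : ℚ} (hg : g ≠ 0) (hD' : D' ≠ 0)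
    (h : m * D = D' * g ^ 2)
    (hs : ∀ x : Pool.Agent.TH841.NF.D.Sha (Pool.Agent.R413.SQ.Cor.ES D'), 2 • x = 0 → x = 0) :
    ∀ x : Pool.Agent.TH841.NF.D.Sha (Pool.Agent.TH841.NF.tw m (Pool.Agent.R413.SQ.Cor.ES D)), 2 • x = 0 → x = 0 := by
  have hV : Pool.Agent.Y700.VR (Pool.Agent.TH841.NF.tw m (Pool.Agent.R413.SQ.Cor.ES D))
      (Pool.Agent.R413.SQ.Cor.ES D') g 0 0 0 := by
    refine ⟨hg, ?_, ?_, ?_, ?_, ?_⟩
    · simp [Pool.Agent.TH841.NF.tw, Pool.Agent.R413.SQ.Cor.ES]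
    · simp [Pool.Agent.TH841.NF.tw, Pool.Agent.R413.SQ.Cor.ES]
    · simp [Pool.Agent.TH841.NF.tw, Pool.Agent.R413.SQ.Cor.ES]
    · simp only [Pool.Agent.TH841.NF.tw, Pool.Agent.R413.SQ.Cor.ES, Pool.Agent.R413.SQ.Cor.a]
      push_cast
      have h2 : (m * D) ^ 2 = (D' * g ^ 2) ^ 2 := by rw [h]
      linear_combination 35 * h2
    · simp only [Pool.Agent.TH841.NF.tw, Pool.Agent.R413.SQ.Cor.ES, Pool.Agent.R413.SQ.Cor.a,
        Pool.Agent.R413.SQ.Cor.b]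
      push_cast
      have h3 : (m * D) ^ 3 = (D' * g ^ 2) ^ 3 := by rw [h]
      linear_combination 98 * h3
  have hD := Pool.Agent.R413.SQ.Cor.disc_ne hD'
  have e2 := (Pool.Agent.Y655.XT.isoVR hV hD).sha
  intro x hx
  have h2 := hs (e2.symm x) (by rw [← map_nsmul, hx, map_zero])
  exact (map_eq_zero_iff e2.symm e2.symm.injective).1 h2

/-- the product of products, up to squares -/
lemma prod_two {n : ℕ} {P : Finset ℕ} (hP : ∀ q ∈ P, q ≠ 0) (S : Fin n → Finset ℕ)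
    (hS : ∀ i, S i ⊆ P) (T : Finset (Fin n)) :
    ∃ (U : Finset ℕ) (k : ℕ), U ⊆ P ∧ k ≠ 0 ∧
      ∏ i ∈ T, ∏ q ∈ S i, q = (∏ q ∈ U, q) * k ^ 2 := by
  induction T using Finset.induction_on with
  | empty => exact ⟨∅, 1, Finset.empty_subset _, one_ne_zero, by simp⟩
  | insert a T ha ih =>
    obtain ⟨U, k, hU, hk, h⟩ := ih
    refine ⟨S a \ U ∪ U \ S a, k * ∏ q ∈ S a ∩ U, q, ?_, ?_, ?_⟩
    · exact Finset.union_subset (Finset.sdiff_subset.trans (hS a)) (Finset.sdiff_subset.trans hU)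
    · exact mul_ne_zero hk (Finset.prod_ne_zero_iff.2 fun q hq =>
        hP q (hU (Finset.mem_inter.1 hq).2))
    · rw [Finset.prod_insert ha, h, Finset.prod_union (by
        rw [Finset.disjoint_left]
        intro x hx hy
        exact (Finset.mem_sdiff.1 hx).2 (Finset.mem_sdiff.1 hy).1)]
      have e1 : ∏ q ∈ S a, q = (∏ q ∈ S a \ U, q) * ∏ q ∈ S a ∩ U, q := by
        rw [← Finset.prod_union (Finset.disjoint_sdiff_inter _ _), Finset.sdiff_union_inter]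
      have e2 : ∏ q ∈ U, q = (∏ q ∈ U \ S a, q) * ∏ q ∈ S a ∩ U, q := by
        rw [Finset.inter_comm, ← Finset.prod_union (Finset.disjoint_sdiff_inter _ _),
          Finset.sdiff_union_inter]
      rw [e1, e2]
      ring

/-- **the 2-primary part of `Ш` over a number field in the tower is killed by the degree** -/
theorem sha_K {P : Finset ℕ} (hP : ∀ q ∈ P, q ≠ 0) {D : ℕ} (hD : D ≠ 0)
    (h : ∀ T, T ⊆ P → ∀ x : Pool.Agent.TH841.NF.D.Sha
      (Pool.Agent.R413.SQ.Cor.ES (Pool.Agent.U80.MQ.tw (∏ q ∈ T, q) D)), 2 • x = 0 → x = 0)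
    (n : ℕ) (S : Fin n → Finset ℕ) (hS : ∀ i, S i ⊆ P)
    (K : Type) [Field K] [NumberField K] [Algebra ℚ K] (r : Fin n → K)
    (hr : ∀ i, r i ^ 2 = ((∏ q ∈ S i, q : ℕ) : K))
    (hgen : IntermediateField.adjoin ℚ (Set.range r) = ⊤) (W : WeierstrassCurve K)
    (hW : Sc (algebraMap ℚ K) 1 (Pool.Agent.R413.SQ.Cor.ES D) W) (k : ℕ)
    (x : Pool.Agent.TH841.NF.D.Sha W) (hx : (2 ^ k : ℕ) • x = 0) : (2 ^ n : ℕ) • x = 0 := by
  obtain ⟨e⟩ := Pool.Agent.Y682.exists_e K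
  have hd : ∀ i, (((∏ q ∈ S i, q : ℕ) : ℕ) : ℚ) ≠ 0 := by
    intro i
    exact_mod_cast Finset.prod_ne_zero_iff.2 fun q hq => hP q (hS i hq)
  have hr' : ∀ i, r i ^ 2 = algebraMap ℚ K (((∏ q ∈ S i, q : ℕ) : ℕ) : ℚ) := by
    intro i
    rw [hr i, map_natCast]
  refine thS_ker hW rfl rfl e hr' hd hgen x fun T => ?_
  obtain ⟨U, l, hU, hl, hUl⟩ := prod_two hP S hS T
  have hU0 : (∏ q ∈ U, q) ≠ 0 := Finset.prod_ne_zero_iff.2 fun q hq => hP q (hU hq)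
  obtain ⟨e1, e2⟩ := tw_spec hU0 hD
  have h1 := nf_scale (D := D) (D' := Pool.Agent.U80.MQ.tw (∏ q ∈ U, q) D)
    (m := ∏ i ∈ T, (((∏ q ∈ S i, q : ℕ) : ℕ) : ℚ))
    (g := ((Nat.gcd (∏ q ∈ U, q) D * l : ℕ) : ℚ)) (by
      have : Nat.gcd (∏ q ∈ U, q) D ≠ 0 := Nat.gcd_ne_zero_right hD
      exact_mod_cast mul_ne_zero this hl) e2 (by
      rw [← Nat.cast_prod, hUl]
      have e3 : ((Pool.Agent.U80.MQ.tw (∏ q ∈ U, q) D : ℕ) : ℚ) *
          ((Nat.gcd (∏ q ∈ U, q) D : ℕ) : ℚ) ^ 2 = ((∏ q ∈ U, q : ℕ) : ℚ) * (D : ℚ) := by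
        exact_mod_cast e1
      push_cast at e3 ⊢
      linear_combination (-(l : ℚ) ^ 2) * e3) (h U hU)
  exact no_two_pow (sh_of_nf h1) k _ (by rw [← map_nsmul, hx, map_zero])

end Pool.Agent.U80.MQ
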