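import Pool.Agent.U80.MQ.Rk
import Pool.Agent.R413.SM.Law

/-!
# Infinite multiquadratic towers
-/

set_option autoImplicit false

open scoped Classical

open NumberField
open scoped symmDiff

namespace Pool.Agent.U80.MQ

open Pool.Agent.R413.SQ (Gd Sol cu mk)
open Pool.Agent.Y703.CQ (nr)
open Pool.Agent.Y698.SG (n4)
open Pool.Agent.Results.MP_4a9ea6_nt.TwoPartTwistsX49 (Adm mat)
open Pool.Agent.R413.SQ.Joint (tw_pf adm_tw)

/-- the primes `1 mod 4`, inert in `ℚ(√-7)`, that are squares modulo the prime factors of `D` split in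
`ℚ(√-7)` -/
def QD (D q : ℕ) : Prop :=
  q.Prime ∧ q % 4 = 1 ∧ mk q ≠ 1 ∧ ∀ p ∈ D.primeFactors, mk p = 1 → IsSquare (q : ZMod p)

lemma sol_symm {D : ℕ} {S : Finset ℕ} (hS : ∀ q ∈ S, QD D q) (x : ℕ → ZMod 2) :
    Sol n4 (D.primeFactors ∆ S) x ↔ Sol n4 D.primeFactors x := by
  set P := D.primeFactors with hP
  have hmem : ∀ p, mk p = 1 → (p ∈ P ∆ S ↔ p ∈ P) := by
    intro p hp
    have h1 : p ∉ S := fun h => (hS p h).2.2.1 hp
    rw [Finset.mem_symmDiff]
    tauto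
  have hsum : ∀ p ∈ P, mk p = 1 → ∑ q ∈ P ∆ S, nr p q * (cu x q + x p) =
      ∑ q ∈ P, nr p q * (cu x q + x p) := by
    intro p hp h1
    have hz : ∀ q ∈ S, nr p q * (cu x q + x p) = 0 := by
      intro q hq
      have : nr p q = 0 := if_pos ((hS q hq).2.2.2 p hp h1)
      rw [this, zero_mul]
    have e2 : ∑ q ∈ P \ S, nr p q * (cu x q + x p) = ∑ q ∈ P ∆ S, nr p q * (cu x q + x p) := by
      refine Finset.sum_subset (fun q hq => Finset.mem_symmDiff.2 (Or.inl (Finset.mem_sdiff.1 hq)))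
        fun q hq hq' => hz q ?_
      rcases Finset.mem_symmDiff.1 hq with h | h
      · exact absurd (Finset.mem_sdiff.2 h) hq'
      · exact h.1
    have e3 : ∑ q ∈ P \ S, nr p q * (cu x q + x p) = ∑ q ∈ P, nr p q * (cu x q + x p) := by
      refine Finset.sum_subset Finset.sdiff_subset fun q hq hq' => hz q ?_
      by_contra h
      exact hq' (Finset.mem_sdiff.2 ⟨hq, h⟩)
    rw [← e2, e3]
  constructor
  · intro h p hp h1
    have := h p ((hmem p h1).2 hp) h1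
    rwa [hsum p hp h1] at this
  · intro h p hp h1
    have hp' := (hmem p h1).1 hp
    rw [hsum p hp' h1]
    exact h p hp' h1

lemma gd_symm {D : ℕ} {S : Finset ℕ} (hS : ∀ q ∈ S, QD D q) :
    Gd n4 (D.primeFactors ∆ S) ↔ Gd n4 D.primeFactors := by
  have hmem : ∀ p, mk p = 1 → (p ∈ D.primeFactors ∆ S ↔ p ∈ D.primeFactors) := by
    intro p hp
    have h1 : p ∉ S := fun h => (hS p h).2.2.1 hp
    rw [Finset.mem_symmDiff]
    tauto
  constructor
  · intro h x hx p hp h1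
    exact h x ((sol_symm hS x).2 hx) p ((hmem p h1).2 hp) h1
  · intro h x hx p hp h1
    exact h x ((sol_symm hS x).1 hx) p ((hmem p h1).1 hp) h1

lemma adm_prod {D : ℕ} {S : Finset ℕ} (hS : ∀ q ∈ S, QD D q) :
    Adm (∏ q ∈ S, q) ∧ (∏ q ∈ S, q).primeFactors = S := by
  have hp : ∀ q ∈ S, q.Prime := fun q hq => (hS q hq).1
  have h1 : (∏ q ∈ S, q).primeFactors = S := Nat.primeFactors_prod hp
  refine ⟨⟨?_, fun p hp' => ?_⟩, h1⟩
  · refine Finset.squarefree_prod_of_pairwise_isCoprime (fun p hp1 q hq hpq => ?_)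
      fun p hp1 => (hp p hp1).squarefree
    show IsRelPrime p q
    rw [← Nat.coprime_iff_isRelPrime]
    exact (Nat.coprime_primes (hp p hp1) (hp q hq)).mpr hpq
  · rw [h1] at hp'
    exact (hS p hp').2.1

/-- the matrix does not change -/
theorem det_symm {D : ℕ} (hA : Adm D) {S : Finset ℕ} (hS : ∀ q ∈ S, QD D q) :
    (mat (tw (∏ q ∈ S, q) D)).det ≠ 0 ↔ (mat D).det ≠ 0 := by
  obtain ⟨h1, h2⟩ := adm_prod hS
  have e : tw (∏ q ∈ S, q) D = Pool.Agent.R413.SQ.Joint.tw (∏ q ∈ S, q) D := rfl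
  rw [e, Pool.Agent.R413.SQ.Cor.det_iff (adm_tw h1 hA), Pool.Agent.R413.SQ.Cor.det_iff hA,
    tw_pf h1 hA, h2]
  exact gd_symm hS

/-- the infinite multiquadratic field -/
noncomputable def KK (D : ℕ) : IntermediateField ℚ ℂ :=
  IntermediateField.adjoin ℚ {z : ℂ | ∃ q : ℕ, QD D q ∧ z ^ 2 = (q : ℂ)}

/-- a number field inside the infinite field -/
theorem sub_KK {D : ℕ} (K : IntermediateField ℚ ℂ) [FiniteDimensional ℚ K] (hK : K ≤ KK D) :
    ∃ P : Finset ℕ, (∀ q ∈ P, QD D q) ∧ K ≤ Om P := by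
  obtain ⟨Z0, h1, h2⟩ := Pool.Agent.Y18.NF.finite_gen K _ hK
  have h3 : ∀ z : ℂ, ∃ q : ℕ, z ∈ Z0 → QD D q ∧ z ^ 2 = (q : ℂ) := by
    intro z
    by_cases hz : z ∈ Z0
    · obtain ⟨q, hq⟩ := h1 hz
      exact ⟨q, fun _ => hq⟩
    · exact ⟨0, fun h => absurd h hz⟩
  choose q hq using h3
  refine ⟨Z0.image q, fun r hr => ?_, h2.trans ?_⟩
  · obtain ⟨z, hz, rfl⟩ := Finset.mem_image.1 hr
    exact (hq z hz).1
  · unfold Om
    refine IntermediateField.adjoin.mono ℚ _ _ fun z hz => ?_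
    exact ⟨q z, Finset.mem_image_of_mem q hz, (hq z hz).2⟩

/-- infinitely many primes -/
theorem QD_inf {D : ℕ} (hA : Adm D) : {q : ℕ | QD D q}.Infinite := by
  have hD0 : D ≠ 0 := hA.1.ne_zero
  have h7 : Nat.Coprime (4 * D) 7 := by
    rw [Nat.coprime_comm, Nat.Prime.coprime_iff_not_dvd (by norm_num)]
    intro h
    have h1 : 7 ∣ D := (Nat.Coprime.dvd_of_dvd_mul_left (by norm_num) h)
    have h2 := hA.2 7 (Nat.mem_primeFactors.2 ⟨by norm_num, h1, hD0⟩)
    omega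
  obtain ⟨a, ha1, ha2⟩ := Nat.chineseRemainder h7 1 3
  have hN : 4 * D * 7 ≠ 0 := by positivity
  have hu : a.Coprime (4 * D * 7) := by
    refine Nat.Coprime.mul_right ?_ ?_
    · have := ha1.gcd_eq
      rw [Nat.gcd_one_left] at this
      exact this
    · have := ha2.gcd_eq
      exact this
  refine (Nat.infinite_setOfPred_prime_and_modEq hN hu).mono ?_
  rintro q ⟨hq, hmod⟩
  have h1 : q ≡ 1 [MOD 4 * D] := (hmod.of_dvd (Dvd.intro _ rfl)).trans ha1
  have h3 : q ≡ 3 [MOD 7] := (hmod.of_dvd (Dvd.intro_left _ rfl)).trans ha2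
  have h4 : q % 4 = 1 := h1.of_dvd (Dvd.intro _ rfl)
  have h5 : q % 7 = 3 := h3
  refine ⟨hq, h4, ?_, fun p hp _ => ?_⟩
  · unfold Pool.Agent.R413.SQ.mk
    rw [if_neg (by omega)]
    norm_num
  · have hpD : p ∣ D := Nat.dvd_of_mem_primeFactors hp
    have h6 : q ≡ 1 [MOD p] := h1.of_dvd (hpD.mul_left 4)
    have h7 : ((q : ℕ) : ZMod p) = 1 := by
      have := (ZMod.natCast_eq_natCast_iff _ _ _).2 h6
      rw [this, Nat.cast_one]
    rw [h7]
    exact ⟨1, by ring⟩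

end Pool.Agent.U80.MQ
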