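import Pool.Agent.U80.MQ.Kum
import Pool.Agent.U80.MQ.Tow

/-!
# Generators of the number fields in the multiquadratic tower
-/

set_option autoImplicit false

attribute [-instance] DivisionRing.toRatAlgebra

/-- the structure of an algebra used here -/
noncomputable local instance iQC : Algebra ℚ ℂ := DivisionRing.toRatAlgebra

namespace Pool.Agent.U80.MQ

/-- the square root -/
noncomputable def rt (q : ℕ) : ℂ := ((Real.sqrt q : ℝ) : ℂ)

lemma rt_sq (q : ℕ) : rt q ^ 2 = (q : ℂ) := by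
  unfold rt
  rw [← Complex.ofReal_pow, Real.sq_sqrt (Nat.cast_nonneg _)]
  simp

/-- the square root of a product -/
noncomputable def wt (S : Finset ℕ) : ℂ := ∏ q ∈ S, rt q

lemma wt_sq (S : Finset ℕ) : wt S ^ 2 = ((∏ q ∈ S, q : ℕ) : ℂ) := by
  unfold wt
  rw [← Finset.prod_pow, Finset.prod_congr rfl (fun q _ => rt_sq q)]
  simp

lemma Om_eq (P : Finset ℕ) : Om P = IntermediateField.adjoin ℚ (rt '' (P : Set ℕ)) := by
  apply le_antisymm
  · unfold Om
    rw [IntermediateField.adjoin_le_iff]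
    rintro z ⟨q, hq, hz⟩
    have h1 : rt q ∈ IntermediateField.adjoin ℚ (rt '' (P : Set ℕ)) :=
      IntermediateField.subset_adjoin ℚ _ ⟨q, hq, rfl⟩
    rcases sq_eq_sq_iff_eq_or_eq_neg.1 (hz.trans (rt_sq q).symm) with h | h
    · rw [h]; exact h1
    · rw [h]; exact neg_mem h1
  · unfold Om
    refine IntermediateField.adjoin.mono ℚ _ _ ?_
    rintro _ ⟨q, hq, rfl⟩
    exact ⟨q, hq, rt_sq q⟩

/-- a subfield is generated by the products that it contains -/
theorem sub_C {P : Finset ℕ} (K : IntermediateField ℚ ℂ) (hK : K ≤ Om P) :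
    K ≤ IntermediateField.adjoin ℚ {m | m ∈ K ∧ ∃ S, S ⊆ P ∧ m = wt S} := by
  have hmem : ∀ q ∈ P, rt q ∈ Om P := fun q hq => by
    rw [Om_eq]
    exact IntermediateField.subset_adjoin ℚ _ ⟨q, hq, rfl⟩
  classical
  let r : ℕ → Om P := fun q => if h : q ∈ P then ⟨rt q, hmem q h⟩ else 0
  have hr : ∀ q ∈ P, ((r q : Om P) : ℂ) = rt q := by
    intro q hq
    show ((if h : q ∈ P then (⟨rt q, hmem q h⟩ : Om P) else 0 : Om P) : ℂ) = rt q
    rw [dif_pos hq]
  have hr2 : ∀ q ∈ P, r q ^ 2 = ((q : ℕ) : Om P) := by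
    intro q hq
    apply Subtype.ext
    have h1 : ((r q ^ 2 : Om P) : ℂ) = ((r q : Om P) : ℂ) ^ 2 := rfl
    rw [h1, hr q hq, rt_sq]
    rfl
  have himg : (Om P).val '' (r '' (P : Set ℕ)) = rt '' (P : Set ℕ) := by
    rw [Set.image_image]
    exact Set.image_congr fun q hq => hr q hq
  have hgen : IntermediateField.adjoin ℚ (r '' (P : Set ℕ)) = ⊤ := by
    apply IntermediateField.map_injective (Om P).val
    rw [IntermediateField.adjoin_map, himg, ← Om_eq]
    rw [← AlgHom.fieldRange_eq_map, IntermediateField.fieldRange_val]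
  have h1 := sub_gen hr2 hgen (K.comap (Om P).val)
  intro x hx
  have h2 : (⟨x, hK hx⟩ : Om P) ∈ K.comap (Om P).val := hx
  have h3 := h1 h2
  have h4 : x ∈ (IntermediateField.adjoin ℚ {m | m ∈ K.comap (Om P).val ∧
      ∃ S, S ⊆ P ∧ m = ∏ q ∈ S, r q}).map (Om P).val := ⟨_, h3, rfl⟩
  rw [IntermediateField.adjoin_map] at h4
  refine IntermediateField.adjoin.mono ℚ _ _ ?_ h4
  rintro _ ⟨m, ⟨hm, S, hS, rfl⟩, rfl⟩
  refine ⟨hm, S, hS, ?_⟩
  rw [map_prod]
  exact Finset.prod_congr rfl fun q hq => hr q (hS hq)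

lemma insert_ad (G : Finset (Finset ℕ)) (S : Finset ℕ) :
    IntermediateField.adjoin ℚ (wt '' ((insert S G : Finset (Finset ℕ)) : Set (Finset ℕ))) =
      IntermediateField.adjoin ℚ (wt '' (G : Set (Finset ℕ))) ⊔ IntermediateField.adjoin ℚ {wt S} := by
  rw [← IntermediateField.adjoin_union, Finset.coe_insert, Set.image_insert_eq, Set.insert_eq,
    Set.union_comm]

theorem deg_pow (G₀ : Finset (Finset ℕ))
    (hmin : ∀ S ∈ G₀, wt S ∉ IntermediateField.adjoin ℚ (wt '' ((G₀.erase S : Finset (Finset ℕ)) :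
      Set (Finset ℕ)))) (G : Finset (Finset ℕ)) : G ⊆ G₀ →
    FiniteDimensional ℚ (IntermediateField.adjoin ℚ (wt '' (G : Set (Finset ℕ)))) ∧
    Module.finrank ℚ (IntermediateField.adjoin ℚ (wt '' (G : Set (Finset ℕ)))) = 2 ^ G.card := by
  classical
  induction G using Finset.induction_on with
  | empty =>
    intro _
    rw [Finset.coe_empty, Set.image_empty, IntermediateField.adjoin_empty, Finset.card_empty,
      pow_zero]
    exact ⟨inferInstance, IntermediateField.finrank_bot⟩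
  | insert S G hSG ih =>
    intro hG
    obtain ⟨hfd, hrk⟩ := ih ((Finset.subset_insert _ _).trans hG)
    have hS : wt S ∉ IntermediateField.adjoin ℚ (wt '' (G : Set (Finset ℕ))) := by
      intro h
      refine hmin S (hG (Finset.mem_insert_self _ _)) ?_
      refine IntermediateField.adjoin.mono ℚ _ _ (Set.image_mono ?_) h
      intro T hT
      rw [Finset.mem_coe, Finset.mem_erase]
      refine ⟨fun h => hSG (h ▸ hT), hG (Finset.mem_insert_of_mem hT)⟩
    set F := IntermediateField.adjoin ℚ (wt '' (G : Set (Finset ℕ))) with hF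
    set F' := IntermediateField.adjoin ℚ
      (wt '' ((insert S G : Finset (Finset ℕ)) : Set (Finset ℕ))) with hF'
    have hFF' : F' = F ⊔ IntermediateField.adjoin ℚ {wt S} := insert_ad G S
    have hz : wt S ^ 2 = (((∏ q ∈ S, q : ℕ) : ℤ) : ℂ) := by rw [wt_sq, Int.cast_natCast]
    have hfd' : FiniteDimensional ℚ F' := by
      rw [hFF']
      have : FiniteDimensional ℚ (IntermediateField.adjoin ℚ {wt S} : IntermediateField ℚ ℂ) :=
        IntermediateField.adjoin.finiteDimensional ⟨Polynomial.X ^ 2 -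
          Polynomial.C ((∏ q ∈ S, q : ℕ) : ℚ), Polynomial.monic_X_pow_sub_C _ (by norm_num), by
            rw [Polynomial.eval₂_sub, Polynomial.eval₂_pow, Polynomial.eval₂_X,
              Polynomial.eval₂_C, wt_sq, map_natCast, sub_self]⟩
      exact IntermediateField.finiteDimensional_sup _ _
    have hN : NumberField F := { to_charZero := inferInstance, to_finiteDimensional := hfd }
    have hN' : NumberField F' := { to_charZero := inferInstance, to_finiteDimensional := hfd' }
    have hle : F ≤ F' := by rw [hFF']; exact le_sup_left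
    refine ⟨hfd', ?_⟩
    have h2 := Pool.Agent.Y51.XD.s_deg2 F F' (wt S) _ hS hz hle hFF'
    let _ : Algebra F F' := (IntermediateField.inclusion hle).toRingHom.toAlgebra
    have ht : IsScalarTower ℚ F F' := IsScalarTower.of_algebraMap_eq fun x => rfl
    have h3 := Module.finrank_mul_finrank ℚ F F'
    rw [hrk] at h3
    rw [← h3, Finset.card_insert_of_notMem hSG, pow_succ]
    congr 1

/-- **generators** -/
theorem exists_gens {P : Finset ℕ} (K : IntermediateField ℚ ℂ) (hK : K ≤ Om P) :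
    ∃ (n : ℕ) (S : Fin n → Finset ℕ) (r : Fin n → K), (∀ i, S i ⊆ P) ∧
      (∀ i, ((r i : K) : ℂ) = wt (S i)) ∧ (∀ i, r i ^ 2 = ((∏ q ∈ S i, q : ℕ) : K)) ∧
      IntermediateField.adjoin ℚ (Set.range r) = ⊤ ∧ Module.finrank ℚ K = 2 ^ n := by
  classical
  set Γ : Finset (Finset ℕ) := P.powerset.filter fun S => wt S ∈ K with hΓ
  have hex : ∃ c : ℕ, ∃ G : Finset (Finset ℕ), G ⊆ Γ ∧ G.card = c ∧
      K ≤ IntermediateField.adjoin ℚ (wt '' (G : Set (Finset ℕ))) := by
    refine ⟨_, Γ, Finset.Subset.refl _, rfl, (sub_C K hK).trans ?_⟩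
    refine IntermediateField.adjoin.mono ℚ _ _ ?_
    rintro _ ⟨hm, S, hS, rfl⟩
    exact ⟨S, by rw [hΓ, Finset.mem_coe, Finset.mem_filter, Finset.mem_powerset]; exact ⟨hS, hm⟩, rfl⟩
  obtain ⟨G, hG, hc, hKG⟩ := Nat.find_spec hex
  have hGK : ∀ S ∈ G, S ⊆ P ∧ wt S ∈ K := by
    intro S hS
    have := hG hS
    rw [hΓ, Finset.mem_filter, Finset.mem_powerset] at this
    exact this
  have hmin : ∀ S ∈ G, wt S ∉ IntermediateField.adjoin ℚ (wt '' ((G.erase S : Finset (Finset ℕ)) :
      Set (Finset ℕ))) := by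
    intro S hS h
    have h1 : (G.erase S).card < Nat.find hex := by
      rw [← hc]
      exact Finset.card_erase_lt_of_mem hS
    refine Nat.find_min hex h1 ⟨G.erase S, (Finset.erase_subset _ _).trans hG, rfl, hKG.trans ?_⟩
    rw [IntermediateField.adjoin_le_iff]
    rintro _ ⟨T, hT, rfl⟩
    by_cases hTS : T = S
    · rw [hTS]; exact h
    · exact IntermediateField.subset_adjoin ℚ _ ⟨T, Finset.mem_coe.2 (Finset.mem_erase.2 ⟨hTS, hT⟩),
        rfl⟩
  have hKe : K = IntermediateField.adjoin ℚ (wt '' (G : Set (Finset ℕ))) := by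
    refine le_antisymm hKG ?_
    rw [IntermediateField.adjoin_le_iff]
    rintro _ ⟨S, hS, rfl⟩
    exact (hGK S hS).2
  have hdeg := (deg_pow G hmin G (Finset.Subset.refl _)).2
  let e : Fin G.card ≃ G := G.equivFin.symm
  refine ⟨G.card, fun i => (e i : Finset ℕ), fun i => ⟨wt (e i), (hGK _ (e i).2).2⟩,
    fun i => (hGK _ (e i).2).1, fun i => rfl, fun i => ?_, ?_, ?_⟩
  · apply Subtype.ext
    show wt (e i) ^ 2 = _
    rw [wt_sq]
    rfl
  · apply IntermediateField.map_injective K.val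
    rw [IntermediateField.adjoin_map, ← AlgHom.fieldRange_eq_map, IntermediateField.fieldRange_val,
      ← Set.range_comp]
    have h1 : Set.range (K.val ∘ fun i : Fin G.card =>
        (⟨wt (e i), (hGK _ (e i).2).2⟩ : K)) = wt '' (G : Set (Finset ℕ)) := by
      ext z
      constructor
      · rintro ⟨i, rfl⟩
        exact ⟨e i, (e i).2, rfl⟩
      · rintro ⟨S, hS, rfl⟩
        exact ⟨e.symm ⟨S, hS⟩, by simp⟩
    rw [h1]
    exact hKe.symm
  · rw [← hdeg]
    exact congrArg (fun F : IntermediateField ℚ ℂ => Module.finrank ℚ F) hKe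

end Pool.Agent.U80.MQ
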