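import Pool.Agent.U80.MQ.ShaM
import Pool.Agent.Y682.AMF

/-!
# Finiteness of the 2-primary part of `Ш`
-/

set_option autoImplicit false

open WeierstrassCurve NumberField IsDedekindDomain

open scoped Classical

namespace Pool.Agent.U80.MQ

/-- the elements killed by `2 ^ n` -/
theorem card_pow {A : Type} [AddCommGroup A] (hf : Finite {x : A // 2 • x = 0}) (n : ℕ) :
    Finite {x : A // (2 ^ n : ℕ) • x = 0} ∧
      Nat.card {x : A // (2 ^ n : ℕ) • x = 0} ≤ Nat.card {x : A // 2 • x = 0} ^ n := by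
  induction n with
  | zero =>
    have h1 : Subsingleton {x : A // (2 ^ 0 : ℕ) • x = 0} := by
      refine ⟨fun x y => Subtype.ext ?_⟩
      have hx : (1 : ℕ) • x.1 = 0 := x.2
      have hy : (1 : ℕ) • y.1 = 0 := y.2
      rw [one_smul] at hx hy
      rw [hx, hy]
    refine ⟨inferInstance, ?_⟩
    rw [pow_zero]
    exact Finite.card_le_one_iff_subsingleton.2 h1
  | succ n ih =>
    obtain ⟨h1, h2⟩ := ih
    let f : {x : A // (2 ^ (n + 1) : ℕ) • x = 0} → {x : A // (2 ^ n : ℕ) • x = 0} := fun x =>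
      ⟨2 • x.1, by rw [smul_smul, ← pow_succ]; exact x.2⟩
    have hex : ∀ y : {x : A // (2 ^ n : ℕ) • x = 0}, ∃ x₀ : A, ∀ x, f x = y → 2 • (x.1 - x₀) = 0 := by
      intro y
      by_cases hy : ∃ x, f x = y
      · obtain ⟨x₀, hx₀⟩ := hy
        refine ⟨x₀.1, fun x hx => ?_⟩
        have h3 : 2 • x.1 = 2 • x₀.1 := congrArg Subtype.val (hx.trans hx₀.symm)
        rw [smul_sub, h3, sub_self]
      · exact ⟨0, fun x hx => absurd ⟨x, hx⟩ hy⟩
    choose x₀ hx₀ using hex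
    let g : {x : A // (2 ^ (n + 1) : ℕ) • x = 0} →
        {x : A // (2 ^ n : ℕ) • x = 0} × {x : A // 2 • x = 0} := fun x =>
      (f x, ⟨x.1 - x₀ (f x), hx₀ (f x) x rfl⟩)
    have hg : Function.Injective g := by
      intro x y hxy
      have h3 : f x = f y := congrArg Prod.fst hxy
      have h4 : x.1 - x₀ (f x) = y.1 - x₀ (f y) := congrArg (fun z => z.2.1) hxy
      rw [h3] at h4
      exact Subtype.ext (sub_left_injective h4)
    refine ⟨Finite.of_injective g hg, ?_⟩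
    refine (Nat.card_le_card_of_injective g hg).trans ?_
    rw [Nat.card_prod, pow_succ]
    exact Nat.mul_le_mul_right _ h2

/-- the places above `7 D` -/
def Pl (D : ℕ) (K : Type) [Field K] [NumberField K] : Set (HeightOneSpectrum (𝓞 K)) :=
  {v | ((7 * D : ℕ) : 𝓞 K) ∈ v.asIdeal}

lemma pl_fin {D : ℕ} (hD : D ≠ 0) (K : Type) [Field K] [NumberField K] : (Pl D K).Finite := by
  have h0 : (Ideal.span {((7 * D : ℕ) : 𝓞 K)} : Ideal (𝓞 K)) ≠ 0 := by
    rw [Ne, Ideal.zero_eq_bot, Ideal.span_singleton_eq_bot]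
    exact_mod_cast mul_ne_zero (by norm_num) hD
  refine (Ideal.finite_factors h0).subset fun v hv => ?_
  exact Ideal.dvd_span_singleton.2 hv

/-- the bound for the 2-torsion -/
theorem two_bound {D : ℕ} (hD : D ≠ 0) (h4 : D % 4 = 1) (K : Type) [Field K] [NumberField K] :
    Finite {x : Pool.Agent.TH841.NF.D.Sha (tc D K) // 2 • x = 0} ∧
    4 * Nat.card {x : Pool.Agent.TH841.NF.D.Sha (tc D K) // 2 • x = 0} ≤
      2 ^ (InfinitePlace.nrComplexPlaces K + 2 * (Pl D K).ncard) *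
        Nat.card {g : Pool.Agent.Y682.NCl K // g ^ 2 = 1} ^ 2 := by
  have hfin := pl_fin hD K
  set T : Finset (HeightOneSpectrum (𝓞 K)) := hfin.toFinset with hT
  have hTc : T.card = (Pl D K).ncard := (Set.ncard_eq_toFinset_card _ hfin).symm
  have hTm : ∀ v, v ∈ T ↔ ((7 * D : ℕ) : 𝓞 K) ∈ v.asIdeal := fun v => by
    rw [hT, Set.Finite.mem_toFinset]
    exact Iff.rfl
  have key : ∀ v ∉ T, (7 * (D : 𝓞 K) ^ 2) ∉ v.asIdeal := by
    intro v hv h
    apply hv
    rw [hTm]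
    have h1 : (7 * (D : 𝓞 K)) * (D : 𝓞 K) ∈ v.asIdeal := by
      have e : (7 * (D : 𝓞 K)) * (D : 𝓞 K) = 7 * (D : 𝓞 K) ^ 2 := by ring
      rw [e]
      exact h
    push_cast
    rcases v.isPrime.mem_or_mem h1 with h2 | h2
    · exact h2
    · exact v.asIdeal.mul_mem_left _ h2
  have hDK : (D : 𝓞 K) ≠ 0 := by exact_mod_cast hD
  obtain ⟨j, hj⟩ : ∃ j : ℕ, D = 1 + 4 * j := ⟨D / 4, by omega⟩
  have hb := Pool.Agent.Y682.bound_final (K := K) (21 * (D : 𝓞 K)) (7 * (D : 𝓞 K) ^ 2) 1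
    ((5 + 21 * j : ℕ) : 𝓞 K) (by
      have : (D : 𝓞 K) = 1 + 4 * (j : 𝓞 K) := by rw [hj]; push_cast; ring
      rw [this]
      push_cast
      ring) (mul_ne_zero (by norm_num) (pow_ne_zero 2 hDK)) (by
      have e : (21 * (D : 𝓞 K)) ^ 2 - 64 * (7 * (D : 𝓞 K) ^ 2) = -7 * (D : 𝓞 K) ^ 2 := by ring
      rw [e]
      exact mul_ne_zero (by norm_num) (pow_ne_zero 2 hDK)) (by
      intro φ
      have e1 : φ (((7 * (D : 𝓞 K) ^ 2 : 𝓞 K) : K)) = 7 * (D : ℝ) ^ 2 := by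
        simp only [map_mul, map_pow, map_natCast, map_ofNat]
      have e2 : φ (((21 * (D : 𝓞 K) : 𝓞 K) : K)) = 21 * (D : ℝ) := by
        simp only [map_mul, map_natCast, map_ofNat]
      rw [e1, e2]
      have hD' : (0 : ℝ) < (D : ℝ) := by exact_mod_cast Nat.pos_of_ne_zero hD
      have hD2 : (0 : ℝ) < (D : ℝ) ^ 2 := by positivity
      exact ⟨by linarith, Or.inr (by nlinarith)⟩) T T (fun v hv => Or.inl (key v hv))
    (fun v hv => Or.inl (by
      intro h
      apply key v hv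
      have e : (7 * (D : 𝓞 K) ^ 2) = -((21 * (D : 𝓞 K)) ^ 2 - 64 * (7 * (D : 𝓞 K) ^ 2)) := by ring
      rw [e]
      exact neg_mem h)) (by
      intro v hv h2
      rw [hTm] at hv
      have hodd : (7 * D) % 2 = 1 := by omega
      obtain ⟨i, hi⟩ : ∃ i : ℕ, 7 * D = 2 * i + 1 := ⟨7 * D / 2, by omega⟩
      rw [hi] at hv
      push_cast at hv
      apply v.isPrime.ne_top
      rw [Ideal.eq_top_iff_one]
      have h3 := v.asIdeal.sub_mem hv (v.asIdeal.mul_mem_right (i : 𝓞 K) h2)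
      have e : 2 * (i : 𝓞 K) + 1 - 2 * (i : 𝓞 K) = 1 := by ring
      rw [e] at h3
      exact h3) (P := ((21 * (D : 𝓞 K) : 𝓞 K) : K)) (Q := 16 * ((7 * (D : 𝓞 K) ^ 2 : 𝓞 K) : K))
      (Or.inl ⟨rfl, rfl⟩)
  have hwc : Pool.Agent.Y682.wc ((21 * (D : 𝓞 K) : 𝓞 K) : K) (16 * ((7 * (D : 𝓞 K) ^ 2 : 𝓞 K) : K)) =
      wq D K := by
    unfold Pool.Agent.Y682.wc wq Pool.Agent.Y682.gc
    ext
    · rfl
    · simp only [map_mul, map_natCast, map_ofNat]
      push_cast
      ring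
    · rfl
    · simp only [map_mul, map_pow, map_natCast, map_ofNat]
      push_cast
      ring
    · rfl
  rw [hwc, hTc] at hb
  obtain ⟨hb1, hb2⟩ := hb
  obtain ⟨-, ⟨e⟩⟩ := Pool.Agent.Y655.XT.s_shavc K (tc D K) (wq D K) (cv D K) (tc_disc hD K) (cv_eq D K)
  let e' : {x : Pool.Agent.TH841.NF.D.Sha (tc D K) // 2 • x = 0} ≃
      {x : Pool.Agent.TH841.NF.D.Sha (wq D K) // 2 • x = 0} :=
    e.toEquiv.subtypeEquiv fun x => by
      constructor
      · intro h
        show 2 • e x = 0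
        rw [← map_nsmul, h, map_zero]
      · intro h
        have h' : 2 • e x = 0 := h
        rw [← map_nsmul] at h'
        exact (map_eq_zero_iff e e.injective).1 h'
  refine ⟨Finite.of_equiv _ e'.symm, ?_⟩
  rw [Nat.card_congr e']
  refine le_trans ?_ (hb2.trans (le_of_eq ?_))
  · refine Nat.mul_le_mul_right _ ?_
    have : 1 ≤ 2 ^ Pool.Agent.TH841.NF.D.rk (wq D K) := Nat.one_le_two_pow
    omega
  · rw [add_assoc, ← two_mul]

end Pool.Agent.U80.MQ
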