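import Pool.Agent.U80.MQ.Lf
import Pool.Agent.Y18.NF.Tr

/-!
# The `L`-function of `E_D` over the subfields of a real multiquadratic field
-/

set_option autoImplicit false

open NumberField IsDedekindDomain H300.HW IsCyclotomicExtension.Rat
open scoped symmDiff

namespace Pool.Agent.U80.MQ

open Pool.Agent.Y18.BSD (disc jc)
open Pool.Agent.Y18.NF (YY_sub pv_jac gauss_T hasProd_plE)
open Pool.Agent.Y702.L (pv)
open W165.CE (fac)

/-- the field generated by the square roots of the elements of `P` -/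
noncomputable def Om (P : Finset ℕ) : IntermediateField ℚ ℂ :=
  IntermediateField.adjoin ℚ {z : ℂ | ∃ q ∈ P, z ^ 2 = (q : ℂ)}

/-- the squarefree part of `M D` -/
def tw (M D : ℕ) : ℕ := M * D / Nat.gcd M D ^ 2

/-- `L(E_D, s)` is entire and not zero at `1` -/
def NZ (D : ℕ) : Prop := ∃ F : ℂ → ℂ, Differentiable ℂ F ∧ Pr D F ∧ F 1 ≠ 0

lemma disc_one {q : ℕ} (hq : q % 4 = 1) : disc {q} = (q : ℤ) := by
  unfold disc
  rw [Finset.prod_singleton]
  obtain ⟨k, hk⟩ : ∃ k, q = 4 * k + 1 := ⟨q / 4, by omega⟩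
  have e : (q - 1) / 2 = 2 * k := by omega
  rw [e, pow_mul, neg_one_sq, one_pow, one_mul]

lemma tw_spec {M D : ℕ} (hM : M ≠ 0) (hD : D ≠ 0) :
    tw M D * Nat.gcd M D ^ 2 = M * D ∧ tw M D ≠ 0 := by
  have h1 : Nat.gcd M D ^ 2 ∣ M * D := by
    rw [sq]
    exact Nat.mul_dvd_mul (Nat.gcd_dvd_left M D) (Nat.gcd_dvd_right M D)
  have e : tw M D * Nat.gcd M D ^ 2 = M * D := Nat.div_mul_cancel h1
  refine ⟨e, fun h0 => ?_⟩
  rw [h0, zero_mul] at e
  exact mul_ne_zero hM hD e.symm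

/-- the field inside a cyclotomic field -/
theorem cyc_field (P : Finset ℕ) (hP : ∀ q ∈ P, q.Prime ∧ q % 4 = 1)
    (K : IntermediateField ℚ ℂ) [NumberField K] (hK : K ≤ Om P) :
    ∃ (n : ℕ) (_ : NeZero n) (L : Type) (_ : Field L) (_ : NumberField L)
      (_ : IsCyclotomicExtension {n} ℚ L) (F : IntermediateField ℚ L) (_ : F ≃+* K),
      ∀ χ ∈ YY n L F, ∃ T, T ⊆ P ∧
        ∀ p : ℕ, pv n χ p = ((jacobiSym p (∏ q ∈ T, q) : ℤ) : ℂ) := by
  classical
  have hPp : ∀ q ∈ P, q.Prime ∧ q ≠ 2 := fun q hq => ⟨(hP q hq).1, by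
    rintro rfl
    have := (hP 2 hq).2
    omega⟩
  set n : ℕ := ∏ q ∈ P, q with hn
  have hn0 : NeZero n := ⟨Finset.prod_ne_zero_iff.2 fun q hq => (hP q hq).1.ne_zero⟩
  have hcyc : IsCyclotomicExtension {n} ℚ (CyclotomicField n ℚ) :=
    CyclotomicField.isCyclotomicExtension n ℚ
  let φ : CyclotomicField n ℚ →ₐ[ℚ] ℂ := IsAlgClosed.lift
  set X : Set (Finset ℕ) := {T | T ⊆ P} with hX
  have hX0 : ∅ ∈ X := Finset.empty_subset P
  have hXc : ∀ S ∈ X, ∀ T ∈ X, S ∆ T ∈ X := by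
    intro S hS T hT q hq
    rcases Finset.mem_symmDiff.1 hq with h | h
    · exact hS h.1
    · exact hT h.1
  set ZL : Set (CyclotomicField n ℚ) :=
    {z | ∃ T ∈ X, T ⊆ P ∧ z ^ 2 = ((disc T : ℤ) : CyclotomicField n ℚ)} with hZL
  have hadj : K ≤ (IntermediateField.adjoin ℚ ZL).map φ := by
    refine hK.trans ?_
    unfold Om
    rw [IntermediateField.adjoin_map]
    refine IntermediateField.adjoin.mono ℚ _ _ ?_
    rintro z ⟨q, hq, hz⟩
    have hT1 : ∀ r ∈ ({q} : Finset ℕ), r.Prime ∧ r ≠ 2 := by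
      intro r hr
      rw [Finset.mem_singleton] at hr
      rw [hr]
      exact hPp q hq
    have hT2 : ∀ r ∈ ({q} : Finset ℕ), r ∣ n := by
      intro r hr
      rw [Finset.mem_singleton] at hr
      rw [hr]
      exact Finset.dvd_prod_of_mem _ hq
    obtain ⟨g, hg, -⟩ := gauss_T n (CyclotomicField n ℚ) hT1 hT2
    have hs : ({q} : Finset ℕ) ⊆ P := Finset.singleton_subset_iff.2 hq
    have h2 : (φ g) ^ 2 = (q : ℂ) := by
      rw [← map_pow, hg, map_intCast, disc_one (hP q hq).2, Int.cast_natCast]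
    rcases sq_eq_sq_iff_eq_or_eq_neg.1 (hz.trans h2.symm) with h | h
    · exact ⟨g, ⟨{q}, hs, hs, hg⟩, h.symm⟩
    · exact ⟨-g, ⟨{q}, hs, hs, by rw [neg_sq, hg]⟩, by
        show φ (-g) = z
        rw [map_neg, h]⟩
  set F' : IntermediateField ℚ (CyclotomicField n ℚ) := K.comap φ with hF'
  have hF'le : F' ≤ IntermediateField.adjoin ℚ ZL := by
    intro x hx
    have h2 : φ x ∈ K := hx
    obtain ⟨y, hy, hyx⟩ := hadj h2
    have h3 : y = x := φ.toRingHom.injective hyx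
    rw [← h3]
    exact hy
  let ψ : F' →+* K :=
    { toFun := fun x => ⟨φ x.1, x.2⟩
      map_one' := Subtype.ext (map_one φ)
      map_mul' := fun x y => Subtype.ext (map_mul φ x.1 y.1)
      map_zero' := Subtype.ext (map_zero φ)
      map_add' := fun x y => Subtype.ext (map_add φ x.1 y.1) }
  have hψ : Function.Bijective ψ := by
    refine ⟨ψ.injective, fun y => ?_⟩
    obtain ⟨x, -, hx⟩ := hadj y.2
    exact ⟨⟨x, by
      show φ x ∈ K
      have : φ x = y := hx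
      rw [this]
      exact y.2⟩, Subtype.ext hx⟩
  refine ⟨n, hn0, CyclotomicField n ℚ, inferInstance, inferInstance, hcyc, F',
    RingEquiv.ofBijective ψ hψ, fun χ hχ => ?_⟩
  obtain ⟨T, hT, hTP, hTχ⟩ := YY_sub n (CyclotomicField n ℚ) X P hPp dvd_rfl hX0 hXc F' hF'le hχ
  refine ⟨T, hTP, fun p => ?_⟩
  exact pv_jac n (fun q hq => hPp q (hTP hq)) (Finset.prod_dvd_prod_of_subset _ _ _ hTP) hTχ p

/-- **the `L`-function over a subfield of the multiquadratic field** -/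
theorem lf_K (P : Finset ℕ) (hP : ∀ q ∈ P, q.Prime ∧ q % 4 = 1) {D : ℕ} (hD : Squarefree D)
    (h : ∀ T, T ⊆ P → NZ (tw (∏ q ∈ T, q) D))
    (K : IntermediateField ℚ ℂ) [NumberField K] (hK : K ≤ Om P) :
    ∃ G : ℂ → ℂ, Differentiable ℂ G ∧ (∀ s : ℂ, 3 / 2 < s.re →
      HasProd (factor (K := K) (A D) (B D) s) (G s)) ∧ G 1 ≠ 0 := by
  classical
  obtain ⟨n, hn0, L, hL1, hL2, hL3, F, e, hχ⟩ := cyc_field P hP K hK
  have hsq : ∀ T, T ⊆ P → Squarefree (∏ q ∈ T, q) := by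
    intro T hT
    have h1 : ∀ S : Finset ℕ, S ⊆ P → Squarefree (∏ q ∈ S, q) := by
      intro S
      induction S using Finset.induction_on with
      | empty => intro _; simp
      | insert a S ha ih =>
        intro hS
        rw [Finset.prod_insert ha, Nat.squarefree_mul]
        · exact ⟨(hP a (hS (Finset.mem_insert_self _ _))).1.prime.squarefree,
            ih fun q hq => hS (Finset.mem_insert_of_mem hq)⟩
        · refine Nat.Coprime.prod_right fun q hq => ?_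
          rw [Nat.coprime_primes (hP a (hS (Finset.mem_insert_self _ _))).1
            (hP q (hS (Finset.mem_insert_of_mem hq))).1]
          rintro rfl
          exact ha hq
    exact h1 T hT
  have hmem : ∀ T, T ⊆ P → ∀ p : ℕ, p.Prime → p ∣ ∏ q ∈ T, q → p % 4 = 1 := by
    intro T hT p hp hd
    obtain ⟨q, hq, hpq⟩ := (Nat.Prime.prime hp).exists_mem_finset_dvd hd
    have := (Nat.prime_dvd_prime_iff_eq hp (hP q (hT hq)).1).1 hpq
    rw [this]
    exact (hP q (hT hq)).2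
  have hex : ∀ χ : DirichletCharacter ℂ n, ∃ G : ℂ → ℂ, χ ∈ YY n L F →
      Differentiable ℂ G ∧ G 1 ≠ 0 ∧ ∀ s : ℂ, 3 / 2 < s.re →
        HasProd (fun p : Nat.Primes => eul n (14 * D) (cD D) χ s p) (G s) := by
    intro χ
    by_cases hm : χ ∈ YY n L F
    · obtain ⟨T, hT, hTχ⟩ := hχ χ hm
      obtain ⟨Φ, h1, h2, h3⟩ := h T hT
      have hM0 : (∏ q ∈ T, q) ≠ 0 := (hsq T hT).ne_zero
      obtain ⟨e1, e2⟩ := tw_spec hM0 hD.ne_zero
      refine ⟨fun s => Φ s * ∏ p ∈ (Nat.gcd (∏ q ∈ T, q) D).primeFactors,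
        ep (tw (∏ q ∈ T, q) D) s p, fun _ => ⟨?_, ?_, fun s hs => ?_⟩⟩
      · refine h1.mul ?_
        refine Differentiable.fun_finsetProd fun p hp => ?_
        exact ep_diff (Nat.prime_of_mem_primeFactors hp)
      · refine mul_ne_zero h3 (Finset.prod_ne_zero_iff.2 fun p hp => ?_)
        exact ep_one (Nat.prime_of_mem_primeFactors hp)
      · exact eul_prod e2 hD (hsq T hT) (hmem T hT) rfl e1 hTχ h2 hs
    · exact ⟨fun _ => 1, fun h0 => absurd h0 hm⟩
  choose G hG using hex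
  refine ⟨fun s => ∏ χ : YY n L F, G χ s, ?_, fun s hs => ?_, ?_⟩
  · refine Differentiable.fun_finsetProd fun χ _ => ?_
    exact (hG χ.1 χ.2).1
  · have h1 := hasProd_F n L F (a := A D) (b := B D) (N := 14 * D) (c := cD D)
      (disc_ne hD.ne_zero) (fun p hp hpd => by
        rw [dvd_disc hp] at hpd
        exact ⟨hpd, by unfold cD; rw [if_neg hpd]⟩) G s hs
      (fun χ hχ' => (hG χ hχ').2.2 s hs)
    have h2 := hasProd_plE (NumberField.RingOfIntegers.mapRingEquiv e) (A D) (B D) (14 * D) (cD D) s _ h1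
    refine (congrArg (fun f => HasProd f (∏ χ : YY n L F, G χ s))
      (funext fun v => ?_)).mp h2
    refine fac_factor (fun p hp hpd => ?_) s v
    rw [dvd_disc hp] at hpd
    exact ⟨hpd, by unfold cD; rw [if_pos hpd]⟩
  · exact Finset.prod_ne_zero_iff.2 fun χ _ => (hG χ.1 χ.2).2.1

end Pool.Agent.U80.MQ
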