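import Pool.Agent.Results.MP_32c55d_nt.InertTowersX49
import Pool.Agent.U80.MQ.ShaF

/-!
# `Ш[2^∞]` is finite over all the number fields of an infinite tower, for an exact proportion of the
# twists of `X_0(49)` and of the fibres of an elliptic surface

`E_D : y² = x³ - 35 D² x - 98 D³` is the twist of `X_0(49)` by `D`, a squarefree product of primes
`≡ 1 mod 4`. Let `K_∞(D) = ℚ(√q)`, where `q` runs through all the primes `≡ 1 mod 4` that are inert in
`ℚ(√-7)` and squares modulo all the prime factors of `D` that split in `ℚ(√-7)`; `[K_∞(D) : ℚ] = ∞`.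

* Suppose that `E_D(ℚ)` is finite and `Ш(E_D/ℚ)[2] = 0`. Then for ALL the number fields `K` contained in
  `K_∞(D)`: `[K : ℚ] = 2 ^ n` is a power of two, `E_D(K)` is finite, `Ш(E_D/K)[2^∞]` is finite and killed
  by `[K : ℚ]`, and its order is at most `(2 ^ (r₂ + 2 s) h² / 4) ^ n`; here `s` is the number of primes of
  `K` above `7 D`, `r₂` the number of complex places and `h` the order of the 2-torsion of the narrow class
  group of `K`.
* This is the case for exactly the proportion `c = ∏_{i ≥ 0} (1 - 2^{-(2i+1)}) = 0.4194...` of the `D`, and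
  also for exactly the proportion `c` of the fibres of the surface `(t² + 1) y² = x³ - 35 x - 98` at the
  rational numbers `t = a / b` with `a² + b²` odd and squarefree, ordered by `a² + b²`; so it holds for a
  positive proportion of ALL rational numbers `t`.

The proof. A subfield of a multiquadratic field is generated by square roots (`U80/MQ/Kum`), and
`Ш(E_D/K)` maps to the sum of the `Ш` of the twists of `E_D` over `ℚ` with kernel killed by `[K : ℚ]`
(`TH841/NF`); the twists have no elements of order two in `Ш` (`U80/MQ/Tow`, the symmetric matrix of the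
quadratic symbols of the split prime factors does not change in the tower). The bound for `Ш[2]` is that of
`Y682/AMF`; the counts are those of `MP_32c55d_nt/InertTowersX49`.
-/

set_option autoImplicit false

open scoped Classical

open WeierstrassCurve NumberField IsDedekindDomain

namespace Pool.Agent.U80.MQ.ISha

open Pool.Agent.TH841.NF.D (Sha)
open Pool.Agent.Y682 (NCl)

/-- the curve `E_D : y² = x³ - 35 D² x - 98 D³` over `K` -/
def curve (D : ℕ) (K : Type) [Field K] : WeierstrassCurve K :=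
  { a₁ := 0, a₂ := 0, a₃ := 0, a₄ := ((-35 * (D : ℤ) ^ 2 : ℤ) : K),
    a₆ := ((-98 * (D : ℤ) ^ 3 : ℤ) : K) }

/-- squarefree products of primes `≡ 1 mod 4` -/
def Class (D : ℕ) : Prop := Squarefree D ∧ ∀ p ∈ D.primeFactors, p % 4 = 1

/-- `E_D(ℚ)` is finite and `Ш(E_D/ℚ)` has no element of order two -/
def TrivialTwo (D : ℕ) : Prop :=
  Finite (curve D ℚ).toAffine.Point ∧ ∀ x : Sha (curve D ℚ), 2 • x = 0 → x = 0

/-- the primes `q ≡ 1 mod 4`, inert in `ℚ(√-7)`, that are squares modulo the prime factors of `D` that split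
in `ℚ(√-7)` -/
def TowerPrime (D q : ℕ) : Prop :=
  q.Prime ∧ q % 4 = 1 ∧ (q % 7 = 3 ∨ q % 7 = 5 ∨ q % 7 = 6) ∧
    ∀ p ∈ D.primeFactors, (p % 7 = 1 ∨ p % 7 = 2 ∨ p % 7 = 4) → IsSquare (q : ZMod p)

/-- the field generated by the square roots of these primes -/
noncomputable def Tower (D : ℕ) : IntermediateField ℚ ℂ :=
  IntermediateField.adjoin ℚ {z : ℂ | ∃ q : ℕ, TowerPrime D q ∧ z ^ 2 = (q : ℂ)}

/-- the 2-primary part of `Ш(E_D/K)` -/
def shaTwo (D : ℕ) (K : Type) [Field K] [NumberField K] : Set (Sha (curve D K)) :=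
  {x | ∃ k : ℕ, 2 ^ k • x = 0}

/-- the primes of `K` above `7 D` -/
def bad (D : ℕ) (K : Type) [Field K] [NumberField K] : Set (HeightOneSpectrum (𝓞 K)) :=
  {v | ((7 * D : ℕ) : 𝓞 K) ∈ v.asIdeal}

/-- `E_D(K)` and `Ш(E_D/K)[2^∞]` are finite; the latter is killed by `[K : ℚ] = 2 ^ n`, and its order is at
most `(2 ^ (r₂ + 2 s) h² / 4) ^ n` -/
def FiniteTwo (D : ℕ) (K : Type) [Field K] [NumberField K] : Prop :=
  Finite (curve D K).toAffine.Point ∧ (shaTwo D K).Finite ∧
    (∀ x ∈ shaTwo D K, Module.finrank ℚ K • x = 0) ∧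
    ∃ n : ℕ, Module.finrank ℚ K = 2 ^ n ∧
      4 ^ n * (shaTwo D K).ncard ≤ (2 ^ (InfinitePlace.nrComplexPlaces K + 2 * (bad D K).ncard) *
        Nat.card {g : NCl K // g ^ 2 = 1} ^ 2) ^ n

/-- the property for `E_D` over all the number fields in the tower -/
def AllFields (D : ℕ) : Prop :=
  ∀ K : IntermediateField ℚ ℂ, K ≤ Tower D → FiniteDimensional ℚ K →
    ∃ _ : NumberField K, FiniteTwo D K

/-- the height `a² + b²` of the rational number `t = a / b` in lowest terms -/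
def height (t : ℚ) : ℕ := t.num.natAbs ^ 2 + t.den ^ 2

/-- the numbers `D ≤ X` of the class with the property `Q` -/
noncomputable def Numbers (Q : ℕ → Prop) (X : ℕ) : Finset ℕ :=
  (Finset.Icc 1 X).filter fun D => Class D ∧ Q D

/-- the rational numbers `t` of height at most `X`, the height being odd and squarefree, with the
property `Q` of the height -/
def Params (Q : ℕ → Prop) (X : ℕ) : Set ℚ :=
  {t | height t ≤ X ∧ Odd (height t) ∧ Squarefree (height t) ∧ Q (height t)}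

/-- the constant `0.4194...` -/
noncomputable def cc : ℝ := ∏' i : ℕ, (1 - (1 / 2 : ℝ) ^ (2 * i + 1))

section proof

open Pool.Agent.Results.MP_696deb_nt.SumsOfTwoSquares (adm_of par_pat box_fin box_card)
open Pool.Agent.U80.MQ (fin_K Om QD KK sub_KK exists_gens sha_K card_pow two_bound)
open Pool.Agent.Results.MP_4a9ea6_nt.TwoPartTwistsX49 (Adm)
open Pool.Agent.Results.MP_32c55d_nt.InertTowersX49 (tp_iff tower_eq tower_iff par1 cl1)

theorem fin_two {D : ℕ} (hD : D ≠ 0) (h4 : D % 4 = 1) (K : Type) [Field K] [NumberField K]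
    (hfin : Finite (curve D K).toAffine.Point) (n : ℕ) (hn : Module.finrank ℚ K = 2 ^ n)
    (h : ∀ (k : ℕ) (x : Sha (curve D K)), (2 ^ k : ℕ) • x = 0 → (2 ^ n : ℕ) • x = 0) :
    FiniteTwo D K := by
  obtain ⟨h1, h2⟩ := two_bound hD h4 K
  obtain ⟨h3, h5⟩ := card_pow h1 n
  have e : shaTwo D K = {x : Sha (curve D K) | (2 ^ n : ℕ) • x = 0} := by
    ext x
    constructor
    · rintro ⟨k, hk⟩
      exact h k x hk
    · intro hx
      exact ⟨n, hx⟩
  have hs : (shaTwo D K).Finite := by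
    rw [e]
    exact Set.finite_coe_iff.1 h3
  refine ⟨hfin, hs, fun x hx => ?_, n, hn, ?_⟩
  · rw [hn]
    rw [e] at hx
    exact hx
  · have h6 : (shaTwo D K).ncard = Nat.card {x : Sha (curve D K) // (2 ^ n : ℕ) • x = 0} := by
      rw [e]
      rfl
    rw [h6]
    calc 4 ^ n * Nat.card {x : Sha (curve D K) // (2 ^ n : ℕ) • x = 0}
        ≤ 4 ^ n * Nat.card {x : Sha (curve D K) // 2 • x = 0} ^ n := Nat.mul_le_mul_left _ h5
      _ = (4 * Nat.card {x : Sha (curve D K) // 2 • x = 0}) ^ n := (mul_pow _ _ _).symm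
      _ ≤ _ := Nat.pow_le_pow_left h2 n

theorem all_of {D : ℕ} (hA : Adm D) (h : TrivialTwo D) : AllFields D := by
  intro K hK hfd
  have hK' : K ≤ KK D := hK.trans (le_of_eq (tower_eq D))
  obtain ⟨P, hP1, hP2⟩ := sub_KK K hK'
  have hN : NumberField K := { to_charZero := inferInstance, to_finiteDimensional := hfd }
  have hP' : ∀ q ∈ P, q.Prime := fun q hq => (hP1 q hq).1
  have h' : Pool.Agent.Results.MP_32c55d_nt.InertTowersX49.TrivialTwo D := h
  have hTT : ∀ S, S ⊆ P → Pool.Agent.Results.MP_32c55d_nt.InertTowersX49.TrivialTwo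
      (Pool.Agent.U80.MQ.tw (∏ q ∈ S, q) D) := fun S hS =>
    (tower_iff hA fun q hq => (tp_iff D q).2 (hP1 q (hS hq))).2 h'
  have hfin : Finite (curve D K).toAffine.Point :=
    fin_K hP' hA.1.ne_zero (fun S hS => (hTT S hS).1) K hP2
  obtain ⟨n, S, r, hS, -, hr, hgen, hdeg⟩ := exists_gens K hP2
  have hdeg' : Module.finrank ℚ K = 2 ^ n := hdeg
  refine ⟨hN, fin_two hA.1.ne_zero ?_ K hfin n hdeg' fun k x hx => ?_⟩
  · exact Pool.Agent.Results.MP_4a9ea6_nt.TwoPartTwistsX49.adm_mod hA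
  · exact @sha_K P (fun q hq => (hP' q hq).ne_zero) D hA.1.ne_zero (fun T hT => (hTT T hT).2) n S hS
      K _ hN _ r hr hgen (curve D K) (by
        refine ⟨one_ne_zero, ?_, ?_, ?_, ?_, ?_⟩ <;>
          simp [curve, Pool.Agent.R413.SQ.Cor.ES, Pool.Agent.R413.SQ.Cor.a,
            Pool.Agent.R413.SQ.Cor.b]) k x hx

theorem pos_all : ∃ (c : ℝ) (X₀ : ℕ), 0 < c ∧ ∀ X : ℕ, X₀ ≤ X →
    c * X ≤ ({t : ℚ | height t ≤ X ∧ AllFields (height t)}.ncard : ℝ) := by
  obtain ⟨c, X₀, hc0, h⟩ := Pool.Agent.U80.WQ.joint_count cl1 (Finset.Subset.refl ({1} : Finset ℕ))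
  refine ⟨c, X₀, hc0, fun X hX => ?_⟩
  have h1 := h X hX
  rw [← par_pat cl1, ← par1] at h1
  have h3 : (Pool.Agent.Results.MP_32c55d_nt.InertTowersX49.Params
      Pool.Agent.Results.MP_32c55d_nt.InertTowersX49.TrivialTwo X).ncard ≤
      {t : ℚ | height t ≤ X ∧ AllFields (height t)}.ncard := by
    refine Set.ncard_le_ncard (fun t ht => ⟨ht.1, ?_⟩)
      ((Pool.Agent.U80.WQ.finite_ht X).subset fun t ht => ht.1)
    exact all_of (adm_of ht.2.1 ht.2.2.1) ht.2.2.2
  exact h1.trans (by exact_mod_cast h3)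

end proof

/-- the theorem for the twists of `X_0(49)` -/
theorem main :
    (∀ D : ℕ, Class D → {q : ℕ | TowerPrime D q}.Infinite ∧ ¬ FiniteDimensional ℚ (Tower D) ∧
      (TrivialTwo D → AllFields D)) ∧
    Filter.Tendsto (fun X : ℕ => ((Numbers TrivialTwo X).card : ℝ) /
      ((Numbers (fun _ => True) X).card : ℝ)) Filter.atTop (nhds cc) ∧
    (∀ (t : ℚ) (K : Type) [Field K] [CharZero K] (x y : K),
      ((t : K) ^ 2 + 1) * y ^ 2 = x ^ 3 - 35 * x - 98 ↔
        (curve (height t) K).toAffine.Equation (height t * x)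
          ((height t : K) ^ 2 / t.den * y)) ∧
    (∀ t : ℚ, Odd (height t) → Squarefree (height t) → Class (height t)) ∧
    Filter.Tendsto (fun X : ℕ => ((Params TrivialTwo X).ncard : ℝ) /
      ((Params (fun _ => True) X).ncard : ℝ)) Filter.atTop (nhds cc) ∧
    0.4194 < cc ∧ cc < 0.4195 ∧
    ∃ (c : ℝ) (X₀ : ℕ), 0 < c ∧ ∀ X : ℕ, X₀ ≤ X →
      c * ({t : ℚ | height t ≤ X}.ncard : ℝ) ≤
        ({t : ℚ | height t ≤ X ∧ AllFields (height t)}.ncard : ℝ) ∧
      c * ({t : ℚ | max t.num.natAbs t.den ≤ X}.ncard : ℝ) ≤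
        ({t : ℚ | max t.num.natAbs t.den ≤ X ∧ AllFields (height t)}.ncard : ℝ) := by
  obtain ⟨h1, h2, h3, h4, h5, h6, h7, -⟩ :=
    Pool.Agent.Results.MP_32c55d_nt.InertTowersX49.result
  refine ⟨fun D hD => ⟨(h1 D hD).1, (h1 D hD).2.1, all_of hD⟩, h2, h3, h5, h4, h6, h7, ?_⟩
  obtain ⟨c, X₀, hc0, h⟩ := pos_all
  refine ⟨c / 6, X₀ + 1, by positivity, fun X hX => ⟨?_, ?_⟩⟩
  · have h1 := h X (by omega)
    have h2 : ({t : ℚ | height t ≤ X}.ncard : ℝ) ≤ 3 * X := Pool.Agent.U80.WQ.total_t X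
    refine le_trans ?_ h1
    have h3 : (0 : ℝ) ≤ X := Nat.cast_nonneg X
    calc c / 6 * ({t : ℚ | height t ≤ X}.ncard : ℝ) ≤ c / 6 * (3 * X) :=
          mul_le_mul_of_nonneg_left h2 (by positivity)
      _ ≤ c * X := by nlinarith
  · have hX1 : X ≤ X ^ 2 := Nat.le_self_pow (by norm_num) X
    have h1 := h (X ^ 2) (by omega)
    have h2 : ({t : ℚ | max t.num.natAbs t.den ≤ X}.ncard : ℝ) ≤ 6 * X ^ 2 :=
      Pool.Agent.Results.MP_696deb_nt.SumsOfTwoSquares.box_card (by omega)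
    have h3 : {t : ℚ | height t ≤ X ^ 2 ∧ AllFields (height t)} ⊆
        {t : ℚ | max t.num.natAbs t.den ≤ X ∧ AllFields (height t)} := by
      rintro t ⟨h4, h5⟩
      refine ⟨?_, h5⟩
      have h6 : t.num.natAbs ^ 2 + t.den ^ 2 ≤ X ^ 2 := h4
      refine max_le ?_ ?_
      · exact (Nat.pow_le_pow_iff_left (by norm_num : (2 : ℕ) ≠ 0)).1 (by omega)
      · exact (Nat.pow_le_pow_iff_left (by norm_num : (2 : ℕ) ≠ 0)).1 (by omega)
    have h4 := Set.ncard_le_ncard h3
      ((Pool.Agent.Results.MP_696deb_nt.SumsOfTwoSquares.box_fin X).subset fun t ht => ht.1)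
    have h5 : ({t : ℚ | height t ≤ X ^ 2 ∧ AllFields (height t)}.ncard : ℝ) ≤
        ({t : ℚ | max t.num.natAbs t.den ≤ X ∧ AllFields (height t)}.ncard : ℝ) := by
      exact_mod_cast h4
    push_cast at h1
    refine le_trans ?_ (h1.trans h5)
    calc c / 6 * ({t : ℚ | max t.num.natAbs t.den ≤ X}.ncard : ℝ) ≤ c / 6 * (6 * X ^ 2) :=
          mul_le_mul_of_nonneg_left h2 (by positivity)
      _ = c * X ^ 2 := by ring

end Pool.Agent.U80.MQ.ISha
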