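import Pool.Agent.U80.MQ.Rk

/-!
# The subfields of a multiquadratic field are generated by square roots
-/

set_option autoImplicit false

attribute [-instance] DivisionRing.toRatAlgebra

namespace Pool.Agent.U80.MQ

section gen

variable {L : Type} [Field L] [Algebra ℚ L] [FiniteDimensional ℚ L] [IsGalois ℚ L]

lemma sgn {σ : L ≃ₐ[ℚ] L} {m : L} (hm : ∃ c : ℚ, m ^ 2 = algebraMap ℚ L c) : σ m = m ∨ σ m = -m := by
  obtain ⟨c, hc⟩ := hm
  have h : (σ m) ^ 2 = m ^ 2 := by rw [← map_pow, hc, AlgEquiv.commutes]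
  exact sq_eq_sq_iff_eq_or_eq_neg.1 h

lemma fixed {x : L} (h : ∀ σ : L ≃ₐ[ℚ] L, σ x = x) : ∃ c : ℚ, algebraMap ℚ L c = x := by
  have := (IsGalois.mem_bot_iff_fixed (F := ℚ) (E := L) x).2 h
  exact IntermediateField.mem_bot.1 this

/-- the sums -/
theorem sum_mem (K : IntermediateField ℚ L) (hK : ∀ σ : L ≃ₐ[ℚ] L, ∀ x ∈ K, σ x ∈ K)
    (M : Set L) (hM : ∀ m ∈ M, ∃ c : ℚ, m ^ 2 = algebraMap ℚ L c)
    (hMs : ∀ m ∈ M, ∀ c : ℚ, algebraMap ℚ L c * m ∈ M) {ι : Type} (f : ι → L) (n : ℕ) :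
    ∀ s : Finset ι, s.card = n → (∀ i ∈ s, f i ∈ M) → ∑ i ∈ s, f i ∈ K →
      ∑ i ∈ s, f i ∈ IntermediateField.adjoin ℚ (M ∩ K) := by
  classical
  have hch : CharZero L := algebraRat.charZero L
  induction n using Nat.strong_induction_on with
  | _ n ih =>
    intro s hs hf hx
    by_cases hsp : ∃ σ : L ≃ₐ[ℚ] L, (∃ i ∈ s, σ (f i) = f i) ∧ ∃ j ∈ s, σ (f j) ≠ f j
    · obtain ⟨σ, ⟨i, hi, hi2⟩, j, hj, hj2⟩ := hsp
      have e0 := Finset.sum_filter_add_sum_filter_not s (fun i => σ (f i) = f i) f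
      have e1 : σ (∑ i ∈ s, f i) = ∑ i ∈ s.filter (fun i => σ (f i) = f i), f i -
          ∑ i ∈ s.filter (fun i => ¬ σ (f i) = f i), f i := by
        rw [← e0, map_add, map_sum, map_sum, sub_eq_add_neg, ← Finset.sum_neg_distrib]
        congr 1
        · exact Finset.sum_congr rfl fun k hk => (Finset.mem_filter.1 hk).2
        · refine Finset.sum_congr rfl fun k hk => ?_
          have h1 := Finset.mem_filter.1 hk
          exact (sgn (hM _ (hf k h1.1))).resolve_left h1.2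
      have hσ := hK σ _ hx
      have hA : ∑ i ∈ s.filter (fun i => σ (f i) = f i), f i ∈ K := by
        have h1 : ∑ i ∈ s.filter (fun i => σ (f i) = f i), f i =
            (∑ i ∈ s, f i + σ (∑ i ∈ s, f i)) / 2 := by
          rw [e1, ← e0]
          ring
        rw [h1]
        exact K.div_mem (K.add_mem hx hσ) (by exact_mod_cast K.natCast_mem 2)
      have hB : ∑ i ∈ s.filter (fun i => ¬ σ (f i) = f i), f i ∈ K := by
        have h1 : ∑ i ∈ s.filter (fun i => ¬ σ (f i) = f i), f i =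
            (∑ i ∈ s, f i - σ (∑ i ∈ s, f i)) / 2 := by
          rw [e1, ← e0]
          ring
        rw [h1]
        exact K.div_mem (K.sub_mem hx hσ) (by exact_mod_cast K.natCast_mem 2)
      rw [← e0]
      refine add_mem ?_ ?_
      · refine ih _ ?_ _ rfl (fun k hk => hf k (Finset.mem_filter.1 hk).1) hA
        rw [← hs]
        refine Finset.card_lt_card (Finset.filter_ssubset.2 ⟨j, hj, hj2⟩)
      · refine ih _ ?_ _ rfl (fun k hk => hf k (Finset.mem_filter.1 hk).1) hB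
        rw [← hs]
        refine Finset.card_lt_card (Finset.filter_ssubset.2 ⟨i, hi, by simpa using hi2⟩)
    · push Not at hsp
      by_cases hall : ∀ j ∈ s, ∀ σ : L ≃ₐ[ℚ] L, σ (f j) = f j
      · obtain ⟨c, hc⟩ := fixed (x := ∑ i ∈ s, f i) fun σ => by
          rw [map_sum]
          exact Finset.sum_congr rfl fun k hk => hall k hk σ
        rw [← hc]
        exact IntermediateField.algebraMap_mem _ c
      · push Not at hall
        obtain ⟨j, hj, σ₀, hσ₀⟩ := hall
        have hj0 : f j ≠ 0 := by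
          intro h0
          rw [h0, map_zero] at hσ₀
          exact hσ₀ rfl
        obtain ⟨c, hc⟩ := fixed (x := (∑ i ∈ s, f i) * f j) fun σ => by
          rw [map_mul, map_sum]
          by_cases h1 : σ (f j) = f j
          · rw [h1]
            congr 1
            exact Finset.sum_congr rfl fun k hk => hsp σ ⟨j, hj, h1⟩ k hk
          · have h2 : ∀ k ∈ s, σ (f k) = - f k := by
              intro k hk
              refine (sgn (hM _ (hf k hk))).resolve_left fun h3 => h1 (hsp σ ⟨k, hk, h3⟩ j hj)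
            rw [h2 j hj, Finset.sum_congr rfl h2, Finset.sum_neg_distrib, neg_mul_neg]
        obtain ⟨b, hb⟩ := hM _ (hf j hj)
        have hb0 : algebraMap ℚ L b ≠ 0 := by rw [← hb]; exact pow_ne_zero 2 hj0
        have key : ∑ i ∈ s, f i = algebraMap ℚ L (c / b) * f j := by
          rw [map_div₀, hc, ← hb]
          field_simp
        refine IntermediateField.subset_adjoin ℚ _ ⟨?_, hx⟩
        rw [key]
        exact hMs _ (hf j hj) _

end gen

section mq

variable {L : Type} [Field L] [Algebra ℚ L] {P : Finset ℕ} {r : ℕ → L}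

/-- the rational multiples of the products of the roots -/
def Mo (P : Finset ℕ) (r : ℕ → L) : Set L :=
  {m | ∃ (c : ℚ) (S : Finset ℕ), S ⊆ P ∧ m = algebraMap ℚ L c * ∏ q ∈ S, r q}

lemma prod_sq (hr : ∀ q ∈ P, r q ^ 2 = (q : L)) {S : Finset ℕ} (hS : S ⊆ P) :
    (∏ q ∈ S, r q) ^ 2 = ((∏ q ∈ S, q : ℕ) : L) := by
  rw [← Finset.prod_pow, Finset.prod_congr rfl (fun q hq => hr q (hS hq))]
  simp

lemma mo_sq (hr : ∀ q ∈ P, r q ^ 2 = (q : L)) {m : L} (hm : m ∈ Mo P r) :
    ∃ c : ℚ, m ^ 2 = algebraMap ℚ L c := by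
  obtain ⟨c, S, hS, rfl⟩ := hm
  refine ⟨c ^ 2 * ((∏ q ∈ S, q : ℕ) : ℚ), ?_⟩
  rw [mul_pow, prod_sq hr hS, map_mul, map_pow, map_natCast]

lemma mo_smul {m : L} (hm : m ∈ Mo P r) (c : ℚ) : algebraMap ℚ L c * m ∈ Mo P r := by
  obtain ⟨b, S, hS, rfl⟩ := hm
  exact ⟨c * b, S, hS, by rw [map_mul, mul_assoc]⟩

lemma mo_mul (hr : ∀ q ∈ P, r q ^ 2 = (q : L)) {q : ℕ} (hq : q ∈ P) {m : L} (hm : m ∈ Mo P r) :
    r q * m ∈ Mo P r := by
  classical
  obtain ⟨b, S, hS, rfl⟩ := hm
  by_cases hqS : q ∈ S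
  · refine ⟨b * q, S.erase q, (Finset.erase_subset _ _).trans hS, ?_⟩
    rw [← Finset.mul_prod_erase S r hqS, map_mul, map_natCast, ← hr q hq]
    ring
  · refine ⟨b, insert q S, Finset.insert_subset hq hS, ?_⟩
    rw [Finset.prod_insert hqS]
    ring

lemma mo_closure (hr : ∀ q ∈ P, r q ^ 2 = (q : L)) {x : L}
    (hx : x ∈ Submonoid.closure (r '' (P : Set ℕ))) : x ∈ Mo P r := by
  induction hx using Submonoid.closure_induction_left with
  | one => exact ⟨1, ∅, Finset.empty_subset _, by simp⟩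
  | mul_left a ha y _ ih =>
    obtain ⟨q, hq, rfl⟩ := ha
    exact mo_mul hr hq ih

lemma integral_of {x : L} {c : ℚ} (h : x ^ 2 = algebraMap ℚ L c) : IsIntegral ℚ x :=
  ⟨Polynomial.X ^ 2 - Polynomial.C c, Polynomial.monic_X_pow_sub_C _ (by norm_num), by
    rw [Polynomial.eval₂_sub, Polynomial.eval₂_pow, Polynomial.eval₂_X, Polynomial.eval₂_C, h,
      sub_self]⟩

theorem galois (hr : ∀ q ∈ P, r q ^ 2 = (q : L))
    (hgen : IntermediateField.adjoin ℚ (r '' (P : Set ℕ)) = ⊤) :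
    FiniteDimensional ℚ L ∧ IsGalois ℚ L := by
  have hrat : ∀ x ∈ r '' (P : Set ℕ), ∃ c : ℚ, x ^ 2 = algebraMap ℚ L c := by
    rintro _ ⟨q, hq, rfl⟩
    exact ⟨q, by rw [hr q hq, map_natCast]⟩
  have hfd : FiniteDimensional ℚ L := by
    have h1 : FiniteDimensional ℚ (IntermediateField.adjoin ℚ (r '' (P : Set ℕ))) := by
      have h2 : Finite (r '' (P : Set ℕ)) := (P.finite_toSet.image r).to_subtype
      exact IntermediateField.finiteDimensional_adjoin fun x hx => by
        obtain ⟨c, hc⟩ := hrat x hx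
        exact integral_of hc
    rw [hgen] at h1
    exact LinearEquiv.finiteDimensional (IntermediateField.topEquiv (F := ℚ) (E := L)).toLinearEquiv
  refine ⟨hfd, ?_⟩
  have hch : CharZero L := algebraRat.charZero L
  have hn : Normal ℚ L := by
    refine normal_iff.2 fun x => ⟨Algebra.IsIntegral.isIntegral x, ?_⟩
    have hx : x ∈ IntermediateField.adjoin ℚ (r '' (P : Set ℕ)) := by
      rw [hgen]; exact IntermediateField.mem_top
    refine IntermediateField.splits_of_mem_adjoin ℚ L (fun y hy => ?_) hx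
    obtain ⟨c, hc⟩ := hrat y hy
    refine ⟨integral_of hc, ?_⟩
    have h1 : minpoly ℚ y ∣ Polynomial.X ^ 2 - Polynomial.C c := by
      refine minpoly.dvd ℚ y ?_
      rw [map_sub, map_pow, Polynomial.aeval_X, Polynomial.aeval_C, hc, sub_self]
    have h2 : (Polynomial.X ^ 2 - Polynomial.C c : Polynomial ℚ).map (algebraMap ℚ L) =
        (Polynomial.X - Polynomial.C y) * (Polynomial.X - Polynomial.C (-y)) := by
      rw [Polynomial.map_sub, Polynomial.map_pow, Polynomial.map_X, Polynomial.map_C, ← hc,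
        Polynomial.C_pow, Polynomial.C_neg]
      ring
    have h3 : ((Polynomial.X ^ 2 - Polynomial.C c : Polynomial ℚ).map (algebraMap ℚ L)).Splits := by
      rw [h2]
      exact (Polynomial.Splits.X_sub_C _).mul (Polynomial.Splits.X_sub_C _)
    exact h3.of_dvd (by
      rw [h2]
      exact mul_ne_zero (Polynomial.X_sub_C_ne_zero _) (Polynomial.X_sub_C_ne_zero _))
      (Polynomial.map_dvd _ h1)
  exact { to_isSeparable := inferInstance, to_normal := hn }

theorem exists_sum (hr : ∀ q ∈ P, r q ^ 2 = (q : L))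
    (hgen : IntermediateField.adjoin ℚ (r '' (P : Set ℕ)) = ⊤) (x : L) :
    ∃ (n : ℕ) (f : Fin n → L), (∀ i, f i ∈ Mo P r) ∧ ∑ i, f i = x := by
  obtain ⟨hfd, -⟩ := galois hr hgen
  have h1 : (IntermediateField.adjoin ℚ (r '' (P : Set ℕ))).toSubalgebra =
    Algebra.adjoin ℚ (r '' (P : Set ℕ)) := IntermediateField.adjoin_toSubalgebra _
  have h2 : x ∈ Algebra.adjoin ℚ (r '' (P : Set ℕ)) := by
    rw [← h1, hgen]
    exact IntermediateField.mem_top
  have h3 : x ∈ Submodule.span ℚ (Submonoid.closure (r '' (P : Set ℕ)) : Set L) := by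
    rw [← Algebra.adjoin_eq_span]
    exact h2
  obtain ⟨n, f, g, h4⟩ := Submodule.mem_span_set'.1 h3
  refine ⟨n, fun i => f i • (g i : L), fun i => ?_, h4⟩
  show f i • (g i : L) ∈ Mo P r
  rw [Algebra.smul_def]
  exact mo_smul (mo_closure hr (g i).2) _

/-- the subfields are generated by products of the roots -/
theorem sub_gen (hr : ∀ q ∈ P, r q ^ 2 = (q : L))
    (hgen : IntermediateField.adjoin ℚ (r '' (P : Set ℕ)) = ⊤) (K : IntermediateField ℚ L) :
    K ≤ IntermediateField.adjoin ℚ {m | m ∈ K ∧ ∃ S, S ⊆ P ∧ m = ∏ q ∈ S, r q} := by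
  obtain ⟨hfd, hG⟩ := galois hr hgen
  have hst : ∀ σ : L ≃ₐ[ℚ] L, ∀ x ∈ K, σ x ∈ K := by
    intro σ x hx
    rw [← IsGalois.fixedField_fixingSubgroup K]
    rw [IntermediateField.mem_fixedField_iff]
    intro τ hτ
    have h1 : τ x = x := (IntermediateField.mem_fixingSubgroup_iff K τ).1 hτ x hx
    have h2 : τ (σ x) = σ (τ x) := by
      obtain ⟨n, f, hf, rfl⟩ := exists_sum hr hgen x
      rw [map_sum, map_sum, map_sum, map_sum]
      refine Finset.sum_congr rfl fun i _ => ?_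
      rcases sgn (σ := σ) (mo_sq hr (hf i)) with h | h <;>
        rcases sgn (σ := τ) (mo_sq hr (hf i)) with h' | h' <;> simp [h, h']
    rw [h2, h1]
  intro x hx
  obtain ⟨n, f, hf, rfl⟩ := exists_sum hr hgen x
  have h1 := sum_mem K hst (Mo P r) (fun m hm => mo_sq hr hm) (fun m hm c => mo_smul hm c) f _
    Finset.univ rfl (fun i _ => hf i) hx
  refine (IntermediateField.adjoin_le_iff.2 ?_) h1
  rintro m ⟨⟨c, S, hS, rfl⟩, hm⟩
  by_cases hc : c = 0
  · rw [hc, map_zero, zero_mul]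
    exact zero_mem _
  · have hc' : algebraMap ℚ L c ≠ 0 := (map_ne_zero _).2 hc
    have h2 : ∏ q ∈ S, r q ∈ K := by
      have h3 : ∏ q ∈ S, r q = algebraMap ℚ L c⁻¹ * (algebraMap ℚ L c * ∏ q ∈ S, r q) := by
        rw [map_inv₀]
        field_simp
      rw [h3]
      exact K.mul_mem (K.algebraMap_mem _) hm
    exact mul_mem (IntermediateField.algebraMap_mem _ _)
      (IntermediateField.subset_adjoin ℚ _ ⟨h2, S, hS, rfl⟩)

end mq

end Pool.Agent.U80.MQ
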