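import Pool.Agent.U80.MQ.Fac

/-!
# The Euler product of a twist of `X_0(49)` by a quadratic character
-/

set_option autoImplicit false

open Filter
open W165.CE (ap0 hasse)
open Pool.Agent.Y702.L (pv)

namespace Pool.Agent.U80.MQ

open Classical in
/-- the coefficients of the `L`-function of `E_D` -/
noncomputable def cD (D p : ℕ) : ℂ := if p ∣ 14 * D then 0 else ((ap0 (A D) (B D) p : ℤ) : ℂ)

/-- the Euler polynomial of `E_D` at `p` -/
noncomputable def ep (D : ℕ) (s : ℂ) (p : ℕ) : ℂ :=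
  1 - ((ap0 (A D) (B D) p : ℤ) : ℂ) * (p : ℂ) ^ (-s) + (p : ℂ) ^ (1 - 2 * s)

lemma ap0_le {p : ℕ} (hp : p.Prime) (hp2 : p ≠ 2) (a b : ℤ) :
    |((ap0 a b p : ℤ) : ℝ)| ≤ 2 * Real.sqrt p := by
  have hpf : Fact p.Prime := ⟨hp⟩
  have hk : ringChar (ZMod p) ≠ 2 := by
    rw [ZMod.ringChar_zmod_n]
    exact hp2
  have h := hasse hk (a : ZMod p) (b : ZMod p)
  rw [ZMod.card] at h
  unfold ap0
  push_cast
  exact_mod_cast h

lemma ep_ne {D p : ℕ} (hp : p.Prime) (hp5 : 5 ≤ p) {s : ℂ} (hs : 3 / 2 < s.re) : ep D s p ≠ 0 := by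
  have hp0 : (0 : ℝ) < p := by exact_mod_cast hp.pos
  have hp1 : (1 : ℝ) < p := by exact_mod_cast hp.one_lt
  have h1 := ap0_le hp (by omega) (A D) (B D)
  have n1 : ‖(p : ℂ) ^ (-s)‖ ≤ (p : ℝ) ^ (-(3 / 2) : ℝ) := by
    rw [Complex.norm_natCast_cpow_of_pos hp.pos, Complex.neg_re]
    exact Real.rpow_le_rpow_of_exponent_le hp1.le (by linarith)
  have n2 : ‖(p : ℂ) ^ (1 - 2 * s)‖ ≤ (p : ℝ) ^ (-2 : ℝ) := by
    rw [Complex.norm_natCast_cpow_of_pos hp.pos]
    refine Real.rpow_le_rpow_of_exponent_le hp1.le ?_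
    have : (1 - 2 * s).re = 1 - 2 * s.re := by simp
    rw [this]
    linarith
  have n3 : ‖((ap0 (A D) (B D) p : ℤ) : ℂ) * (p : ℂ) ^ (-s)‖ ≤ 2 / p := by
    rw [norm_mul]
    have e : ‖((ap0 (A D) (B D) p : ℤ) : ℂ)‖ = |((ap0 (A D) (B D) p : ℤ) : ℝ)| := by
      rw [Complex.norm_intCast]
    rw [e]
    calc |((ap0 (A D) (B D) p : ℤ) : ℝ)| * ‖(p : ℂ) ^ (-s)‖ ≤
        (2 * Real.sqrt p) * (p : ℝ) ^ (-(3 / 2) : ℝ) :=
          mul_le_mul h1 n1 (norm_nonneg _) (by positivity)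
      _ = 2 / p := by
        rw [Real.sqrt_eq_rpow, mul_assoc, ← Real.rpow_add hp0,
          show (1 / 2 : ℝ) + -(3 / 2) = -1 by norm_num, Real.rpow_neg_one]
        rfl
  have n4 : (p : ℝ) ^ (-2 : ℝ) = 1 / (p : ℝ) ^ 2 := by
    rw [Real.rpow_neg hp0.le, one_div]
    norm_cast
  rw [n4] at n2
  intro h0
  have h2 : (1 : ℂ) = ((ap0 (A D) (B D) p : ℤ) : ℂ) * (p : ℂ) ^ (-s) - (p : ℂ) ^ (1 - 2 * s) := by
    have := h0
    unfold ep at this
    linear_combination this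
  have h3 : (1 : ℝ) ≤ 2 / p + 1 / (p : ℝ) ^ 2 := by
    calc (1 : ℝ) = ‖(1 : ℂ)‖ := by simp
      _ = ‖((ap0 (A D) (B D) p : ℤ) : ℂ) * (p : ℂ) ^ (-s) - (p : ℂ) ^ (1 - 2 * s)‖ := by rw [← h2]
      _ ≤ _ := (norm_sub_le _ _).trans (add_le_add n3 n2)
  have hp5' : (5 : ℝ) ≤ p := by exact_mod_cast hp5
  have h4 : 2 / (p : ℝ) ≤ 2 / 5 := div_le_div_of_nonneg_left (by norm_num) (by norm_num) hp5'
  have h5 : 1 / (p : ℝ) ^ 2 ≤ 1 / 5 ^ 2 :=
    div_le_div_of_nonneg_left (by norm_num) (by norm_num) (by nlinarith)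
  linarith

lemma ep_one {D p : ℕ} (hp : p.Prime) : ep D 1 p ≠ 0 := by
  have hp0 : ((p : ℕ) : ℂ) ≠ 0 := by exact_mod_cast hp.ne_zero
  have e : ep D 1 p = ((Nat.card {x : ZMod p × ZMod p // x.2 ^ 2 = x.1 ^ 3 + ((A D : ℤ) : ZMod p) * x.1 +
      ((B D : ℤ) : ZMod p)} + 1 : ℕ) : ℂ) / p := by
    unfold ep ap0
    rw [show (1 : ℂ) - 2 * 1 = -1 by ring, Complex.cpow_neg_one, eq_div_iff hp0]
    push_cast
    field_simp
    ring
  rw [e]
  refine div_ne_zero ?_ hp0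
  rw [Nat.cast_ne_zero]
  omega

lemma ep_diff {D p : ℕ} (hp : p.Prime) : Differentiable ℂ fun s => ep D s p := by
  have hp0 : ((p : ℕ) : ℂ) ≠ 0 := by exact_mod_cast hp.ne_zero
  unfold ep
  refine ((differentiable_const _).sub ((differentiable_const _).mul ?_)).add ?_
  · intro s
    exact (differentiableAt_id.neg).const_cpow (Or.inl hp0)
  · intro s
    refine DifferentiableAt.const_cpow ?_ (Or.inl hp0)
    exact (differentiableAt_const _).sub ((differentiableAt_const _).mul differentiableAt_id)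

open Classical in
/-- the Euler product over the natural numbers -/
def Pr (D : ℕ) (F : ℂ → ℂ) : Prop := ∀ s : ℂ, (3 : ℝ) / 2 < s.re →
  HasProd (fun p : ℕ => if p.Prime ∧ ¬ ((p : ℤ) ∣ 2 * (-4 * A D ^ 3 - 27 * B D ^ 2)) then
    (1 - ((p : ℂ) - (Nat.card {q : ZMod p × ZMod p //
      q.2 ^ 2 = q.1 ^ 3 + (A D : ZMod p) * q.1 + (B D : ZMod p)} : ℂ))
        * (p : ℂ) ^ (-s) + (p : ℂ) ^ (1 - 2 * s))⁻¹ else 1) (F s)

open Classical in
lemma pr_primes {D : ℕ} {F : ℂ → ℂ} (h : Pr D F) {s : ℂ} (hs : (3 : ℝ) / 2 < s.re) :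
    HasProd (fun p : Nat.Primes => if (p : ℕ) ∣ 14 * D then (1 : ℂ) else (ep D s p)⁻¹) (F s) := by
  have h1 := h s hs
  have hinj : Function.Injective (fun p : Nat.Primes => (p : ℕ)) := Subtype.val_injective
  have h2 := (hinj.hasProd_iff (f := fun p : ℕ => if p.Prime ∧
      ¬ ((p : ℤ) ∣ 2 * (-4 * A D ^ 3 - 27 * B D ^ 2)) then
    (1 - ((p : ℂ) - (Nat.card {q : ZMod p × ZMod p //
      q.2 ^ 2 = q.1 ^ 3 + (A D : ZMod p) * q.1 + (B D : ZMod p)} : ℂ))
        * (p : ℂ) ^ (-s) + (p : ℂ) ^ (1 - 2 * s))⁻¹ else 1) (a := F s) (by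
      intro p hp
      rw [if_neg]
      rintro ⟨h3, -⟩
      exact hp ⟨⟨p, h3⟩, rfl⟩)).2 h1
  refine (congrArg (fun g => HasProd g (F s)) (funext fun p => ?_)).mp h2
  simp only [Function.comp_apply]
  have e : 2 * (-4 * A D ^ 3 - 27 * B D ^ 2) = -(2 * (4 * A D ^ 3 + 27 * B D ^ 2)) := by ring
  have h3 : ((p : ℕ) : ℤ) ∣ 2 * (-4 * A D ^ 3 - 27 * B D ^ 2) ↔ (p : ℕ) ∣ 14 * D := by
    rw [e, dvd_neg, dvd_disc p.2]
  by_cases h4 : (p : ℕ) ∣ 14 * D
  · rw [if_pos h4, if_neg (fun h5 => h5.2 (h3.2 h4))]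
  · rw [if_neg h4, if_pos ⟨p.2, fun h5 => h4 (h3.1 h5)⟩]
    unfold ep ap0
    push_cast
    rfl

open Classical in
/-- **the twist** -/
theorem eul_prod {n : ℕ} [NeZero n] {D D' M g : ℕ} (hD0 : D' ≠ 0) (hDs : Squarefree D)
    (hMs : Squarefree M) (hM5 : ∀ p : ℕ, p.Prime → p ∣ M → p % 4 = 1) (hg : g = Nat.gcd M D)
    (e : D' * g ^ 2 = M * D)
    {χ : DirichletCharacter ℂ n} (hχ : ∀ p : ℕ, pv n χ p = ((jacobiSym p M : ℤ) : ℂ))
    {F : ℂ → ℂ} (hF : Pr D' F) {s : ℂ} (hs : (3 : ℝ) / 2 < s.re) :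
    HasProd (fun p : Nat.Primes => eul n (14 * D) (cD D) χ s p)
      (F s * ∏ p ∈ g.primeFactors, ep D' s p) := by
  have hM0 : M ≠ 0 := hMs.ne_zero
  have hDn0 : D ≠ 0 := hDs.ne_zero
  have hg0 : g ≠ 0 := by
    rw [hg]
    exact Nat.gcd_ne_zero_left hM0
  have hM4 : M % 4 = 1 := by
    have h1 := Nat.prod_primeFactors_of_squarefree hMs
    rw [← h1]
    have h2 : ∀ S : Finset ℕ, (∀ p ∈ S, p % 4 = 1) → (∏ p ∈ S, p) % 4 = 1 := by
      intro S
      induction S using Finset.induction_on with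
      | empty => intro _; simp
      | insert a S ha ih =>
        intro h
        rw [Finset.prod_insert ha, Nat.mul_mod, h a (Finset.mem_insert_self _ _),
          ih fun p hp => h p (Finset.mem_insert_of_mem hp)]
    exact h2 _ fun p hp => hM5 p (Nat.prime_of_mem_primeFactors hp) (Nat.dvd_of_mem_primeFactors hp)
  -- the primes
  have hpf : ∀ p : ℕ, p.Prime → (p ∣ g ↔ p ∣ M ∧ p ∣ D) := by
    intro p hp
    rw [hg, Nat.dvd_gcd_iff]
  have hgD' : ∀ p : ℕ, p.Prime → p ∣ g → ¬ p ∣ D' := by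
    intro p hp hpg hpD'
    obtain ⟨h1, h2⟩ := (hpf p hp).1 hpg
    obtain ⟨m, rfl⟩ := h1
    obtain ⟨d, rfl⟩ := h2
    obtain ⟨k, hk⟩ := hpg
    obtain ⟨d', rfl⟩ := hpD'
    rw [hk] at e
    have e2 : p ^ 2 * (p * d' * k ^ 2) = p ^ 2 * (m * d) := by
      linear_combination e
    have e3 := Nat.eq_of_mul_eq_mul_left (pow_pos hp.pos 2) e2
    have h3 : p ∣ m * d := by
      rw [← e3]
      exact ⟨d' * k ^ 2, by ring⟩
    rcases hp.dvd_mul.1 h3 with h4 | h4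
    · have h5 : p * p ∣ p * m := Nat.mul_dvd_mul_left p h4
      have := hMs p h5
      exact hp.not_isUnit this
    · have h5 : p * p ∣ p * d := Nat.mul_dvd_mul_left p h4
      have := hDs p h5
      exact hp.not_isUnit this
  have h14 : ∀ p : ℕ, p.Prime → p ∣ M → ¬ p ∣ 14 := by
    intro p hp h h2
    have h3 := hM5 p hp h
    have h4 : p ≤ 14 := Nat.le_of_dvd (by norm_num) h2
    interval_cases p <;> revert h2 h3 hp <;> decide
  have hgp : ∀ p ∈ g.primeFactors, p.Prime ∧ 5 ≤ p := by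
    intro p hp
    have h1 := Nat.prime_of_mem_primeFactors hp
    have h2 := hM5 p h1 ((hpf p h1).1 (Nat.dvd_of_mem_primeFactors hp)).1
    have h3 := h1.two_le
    exact ⟨h1, by omega⟩
  -- the finite product
  have hfin : HasProd (fun p : Nat.Primes => if (p : ℕ) ∣ g then ep D' s p else 1)
      (∏ p ∈ g.primeFactors, ep D' s p) := by
    let jj : {p // p ∈ g.primeFactors} → Nat.Primes := fun p => ⟨p.1, (hgp p.1 p.2).1⟩
    have hjj : Function.Injective jj := by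
      intro x y hxy
      exact Subtype.ext (congrArg (fun q : Nat.Primes => (q : ℕ)) hxy)
    set T : Finset Nat.Primes := g.primeFactors.attach.image jj with hT
    have h1 : HasProd (fun p : Nat.Primes => if (p : ℕ) ∣ g then ep D' s p else 1)
        (∏ p ∈ T, if (p : ℕ) ∣ g then ep D' s p else 1) := by
      refine hasProd_prod_of_ne_finset_one fun p hp => ?_
      rw [if_neg]
      intro h2
      apply hp
      rw [hT, Finset.mem_image]
      exact ⟨⟨p, Nat.mem_primeFactors.2 ⟨p.2, h2, hg0⟩⟩, Finset.mem_attach _ _, rfl⟩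
    have h2 : (∏ p ∈ T, if (p : ℕ) ∣ g then ep D' s p else 1) = ∏ p ∈ g.primeFactors, ep D' s p := by
      rw [hT, Finset.prod_image hjj.injOn, ← Finset.prod_attach g.primeFactors]
      refine Finset.prod_congr rfl fun p _ => ?_
      have h5 : ((jj p : Nat.Primes) : ℕ) ∣ g := Nat.dvd_of_mem_primeFactors p.2
      rw [if_pos h5]
    rwa [h2] at h1
  have h := (pr_primes hF hs).mul hfin
  refine (congrArg (fun f => HasProd f (F s * ∏ p ∈ g.primeFactors, ep D' s p))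
    (funext fun p => ?_)).mp h
  have hp := p.2
  have hpc : ((p : ℕ) : ℂ) ≠ 0 := by exact_mod_cast hp.ne_zero
  unfold eul cD pp
  rw [hχ]
  by_cases h1 : (p : ℕ) ∣ 14 * D
  · rw [if_pos h1, if_pos h1, zero_mul, zero_mul, sub_zero, zero_mul, zero_mul, add_zero, inv_one]
    by_cases h2 : (p : ℕ) ∣ g
    · have h3 := (hpf p hp).1 h2
      have h4 : ¬ (p : ℕ) ∣ 14 * D' := by
        rw [hp.dvd_mul]
        rintro (h5 | h5)
        · exact h14 p hp h3.1 h5
        · exact hgD' p hp h2 h5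
      rw [if_neg h4, if_pos h2]
      refine inv_mul_cancel₀ (ep_ne hp ?_ hs)
      exact (hgp p (Nat.mem_primeFactors.2 ⟨hp, h2, hg0⟩)).2
    · have h4 : (p : ℕ) ∣ 14 * D' := by
        rcases hp.dvd_mul.1 h1 with h5 | h5
        · exact h5.mul_right D'
        · have h6 : (p : ℕ) ∣ D' * g ^ 2 := by
            rw [e]
            exact h5.mul_left M
          rcases hp.dvd_mul.1 h6 with h7 | h7
          · exact h7.mul_left 14
          · exact absurd (hp.dvd_of_dvd_pow h7) h2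
      rw [if_pos h4, if_neg h2, one_mul]
  · rw [if_neg h1, if_neg h1]
    have hpD : ¬ (p : ℕ) ∣ D := fun h2 => h1 (h2.mul_left 14)
    have hp14 : ¬ (p : ℕ) ∣ 14 := fun h2 => h1 (h2.mul_right D)
    have hp2 : (p : ℕ) ≠ 2 := by
      intro h2
      apply hp14
      rw [h2]
      norm_num
    have hpg : ¬ (p : ℕ) ∣ g := fun h2 => hpD ((hpf p hp).1 h2).2
    rw [if_neg hpg, mul_one]
    by_cases h2 : (p : ℕ) ∣ M
    · have h3 : (p : ℕ) ∣ D' := by
        have h6 : (p : ℕ) ∣ D' * g ^ 2 := by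
          rw [e]
          exact h2.mul_right D
        rcases hp.dvd_mul.1 h6 with h7 | h7
        · exact h7
        · exact absurd (hp.dvd_of_dvd_pow h7) hpg
      have h4 : jacobiSym (p : ℕ) M = 0 := by
        rw [jacobiSym.eq_zero_iff]
        refine ⟨hM0, fun h5 => ?_⟩
        rw [Int.gcd_natCast_natCast] at h5
        exact (Nat.Prime.coprime_iff_not_dvd hp).1 h5 h2
      rw [if_pos (h3.mul_left 14), h4]
      simp
    · have h3 : ¬ (p : ℕ) ∣ D' := by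
        intro h4
        have h5 : (p : ℕ) ∣ M * D := by
          rw [← e]
          exact h4.mul_right _
        rcases hp.dvd_mul.1 h5 with h6 | h6
        · exact h2 h6
        · exact hpD h6
      have h4 : ¬ (p : ℕ) ∣ 14 * D' := by
        rw [hp.dvd_mul]
        rintro (h5 | h5)
        · exact hp14 h5
        · exact h3 h5
      rw [if_neg h4]
      have h5 := ap0_rel hp hp2 hpD h3 h2 e hM4
      have hc : IsCoprime ((p : ℕ) : ℤ) ((M : ℕ) : ℤ) := by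
        rw [Nat.isCoprime_iff_coprime]
        exact (Nat.Prime.coprime_iff_not_dvd hp).2 h2
      have h6 : jacobiSym (p : ℕ) M ^ 2 = 1 := jacobiSym.sq_one (Int.isCoprime_iff_gcd_eq_one.1 hc)
      have h7 : ((jacobiSym (p : ℕ) M : ℤ) : ℂ) ^ 2 = 1 := by exact_mod_cast congrArg (fun z : ℤ => (z : ℂ)) h6
      have h8 : ((p : ℕ) : ℂ) ^ (1 - 2 * s) = (p : ℂ) * (p : ℂ) ^ (-2 * s) := by
        rw [sub_eq_add_neg, Complex.cpow_add _ _ hpc, Complex.cpow_one, neg_mul]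
      unfold ep
      rw [h5, h7, h8]
      push_cast
      ring

end Pool.Agent.U80.MQ
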